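import Pool.Agent.Helper34.Car.Mixed

/-! # The operators `e_v` and leading terms -/

set_option linter.unusedSectionVars false
set_option linter.unusedVariables false

namespace Pool.Agent.Helper34.Ch
open Finset Singer Pool.Agent.Helper34.Car

section lead
variable {V : Type*} [Fintype V] [DecidableEq V] {n : ℕ} {N : Type*} [AddCommGroup N] [Module ℝ N] {r : V → ℕ}

/-- degree at most `d` -/
def Le (d : ℕ) (g : Finset (Fin n) → N) : Prop := ∀ a, d < a.card → g a = 0

theorem Le.add {d : ℕ} {g h : Finset (Fin n) → N} (hg : Le d g) (hh : Le d h) : Le d (g + h) := fun a ha => by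
  rw [Pi.add_apply, hg a ha, hh a ha, add_zero]

theorem Le.sub {d : ℕ} {g h : Finset (Fin n) → N} (hg : Le d g) (hh : Le d h) : Le d (g - h) := fun a ha => by
  rw [Pi.sub_apply, hg a ha, hh a ha, sub_zero]

theorem Le.smul {d : ℕ} {g : Finset (Fin n) → N} (hg : Le d g) (t : ℝ) : Le d (t • g) := fun a ha => by
  rw [Pi.smul_apply, hg a ha, smul_zero]

theorem Le.zsmul {d : ℕ} {g : Finset (Fin n) → N} (hg : Le d g) (t : ℤ) : Le d (t • g) := fun a ha => by
  rw [Pi.smul_apply, hg a ha, smul_zero]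

theorem Le.sum {ι : Type*} {d : ℕ} {s : Finset ι} {f : ι → Finset (Fin n) → N} (h : ∀ i ∈ s, Le d (f i)) :
    Le d (∑ i ∈ s, f i) := by
  intro a ha
  rw [Finset.sum_apply]
  exact Finset.sum_eq_zero fun i hi => h i hi a ha

theorem Le.mono {d e : ℕ} (hde : d ≤ e) {g : Finset (Fin n) → N} (hg : Le d g) : Le e g := fun a ha =>
  hg a (lt_of_le_of_lt hde ha)

theorem Le.of_Dg {d : ℕ} {g : Finset (Fin n) → N} (hg : Dg d g) : Le d g := fun a ha => hg a (by omega)

theorem Le.top (g : Finset (Fin n) → N) : Le n g := fun a ha => by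
  have := a.card_le_univ
  rw [Fintype.card_fin] at this
  omega

theorem Le.ep {d : ℕ} {g : Finset (Fin n) → N} (h : Le d g) (j : Fin n) : Le (d + 1) (ep j g) := by
  intro a ha
  by_cases hj : j ∈ a
  · rw [ep_of_mem hj, h, smul_zero]
    rw [Finset.card_erase_of_mem hj]
    omega
  · exact ep_of_notMem hj g

theorem Le.io {d : ℕ} {g : Finset (Fin n) → N} (h : Le (d + 1) g) (j : Fin n) : Le d (io j g) := by
  intro a ha
  by_cases hj : j ∈ a
  · exact io_of_mem hj g
  · rw [io_of_notMem hj, h, smul_zero]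
    rw [Finset.card_insert_of_notMem hj]
    omega

theorem Le.cp {d : ℕ} {g : Finset (Fin n) → N} (h : Le d g) (c : Fin n → ℝ) : Le (d + 1) (cp c g) := by
  rw [cp_apply]
  exact Le.sum fun j _ => (h.ep j).smul _

theorem Le.cm {d : ℕ} {g : Finset (Fin n) → N} (h : Le (d + 1) g) (c : Fin n → ℝ) : Le d (cm c g) := by
  rw [cm_apply]
  exact Le.sum fun j _ => (h.io j).smul _

theorem Le.par {d : ℕ} {g : Finset (Fin n) → N} (h : Le d g) : Le d (par g) := fun a ha => by
  rw [par_apply, h a ha, smul_zero]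

theorem Le.pt {d : ℕ} {g : Finset (Fin n) → N} (h : Le d g) (T : N →ₗ[ℝ] N) : Le d (pt T g) := fun a ha => by
  rw [pt_apply, h a ha, map_zero]

/-- `e = (-1)^deg A + c⁺ - c⁻` -/
noncomputable def eo (A : N →ₗ[ℝ] N) (c : Fin n → ℝ) : (Finset (Fin n) → N) →ₗ[ℝ] (Finset (Fin n) → N) :=
  par ∘ₗ pt A + del c

theorem eo_apply (A : N →ₗ[ℝ] N) (c : Fin n → ℝ) (g : Finset (Fin n) → N) :
    eo A c g = par (pt A g) + (cp c g - cm c g) := rfl

theorem Le.eo {d : ℕ} {g : Finset (Fin n) → N} (h : Le d g) (A : N →ₗ[ℝ] N) (c : Fin n → ℝ) :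
    Le (d + 1) (eo A c g) := by
  rw [eo_apply]
  refine ((h.pt A).par.mono (by omega)).add (Le.sub (h.cp c) ?_)
  exact ((h.mono (by omega : d ≤ d + 1)).cm c).mono (by omega)

theorem par_del (c : Fin n → ℝ) (g : Finset (Fin n) → N) : par (del c g) = -del c (par g) := by
  unfold del
  rw [LinearMap.sub_apply, LinearMap.sub_apply, map_sub, par_cp, par_cm]
  abel

theorem pt_del (T : N →ₗ[ℝ] N) (c : Fin n → ℝ) (g : Finset (Fin n) → N) : pt T (del c g) = del c (pt T g) := by
  unfold del
  rw [LinearMap.sub_apply, LinearMap.sub_apply, map_sub, pt_cp, pt_cm]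

/-- anticommutator -/
theorem eo_eo (A B : N →ₗ[ℝ] N) (c d : Fin n → ℝ) (g : Finset (Fin n) → N) :
    eo A c (eo B d g) + eo B d (eo A c g)
      = (pt A (pt B g) + pt B (pt A g)) - (2 * ∑ j, c j * d j) • g := by
  have h1 := del_del c d g
  have e : ∀ (A : N →ₗ[ℝ] N) (c : Fin n → ℝ) (g : Finset (Fin n) → N), eo A c g = par (pt A g) + del c g :=
    fun _ _ _ => rfl
  rw [e A c (eo B d g), e B d (eo A c g), e B d g, e A c g]
  simp only [map_add]
  rw [pt_par, par_par, pt_par, par_par, pt_del, par_del, pt_del, par_del]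
  rw [neg_smul] at h1
  have h2 : del c (del d g) = -(del d (del c g)) - (2 * ∑ j, c j * d j) • g := by
    rw [← sub_eq_zero] at h1 ⊢
    rw [← h1]
    abel
  rw [h2]
  abel

theorem cm_eo (A : N →ₗ[ℝ] N) (c l : Fin n → ℝ) (g : Finset (Fin n) → N) :
    cm l (eo A c g) + eo A c (cm l g) = (∑ j, c j * l j) • g := by
  rw [eo_apply, eo_apply, map_add, map_sub, ← cp_cm c l g]
  have h1 := cm_cm c l g
  have h2 : cm l (par (pt A g)) = -par (pt A (cm l g)) := by
    rw [pt_cm, par_cm, neg_neg]
  have h3 : cm l (cm c g) = -cm c (cm l g) := by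
    rw [← sub_eq_zero, sub_neg_eq_add, add_comm]
    exact h1
  rw [h2, h3]
  abel

/-- the data: `c_v`, `A_v` with `{A_u, A_v} = 2 c_u · c_v` on cliques -/
structure Clq (P : Finset V → Prop) (c : V → Fin n → ℝ) (A : V → N →ₗ[ℝ] N) : Prop where
  down : ∀ S T, S ⊆ T → P T → P S
  anti : ∀ u v, P {u, v} → ∀ x, A u (A v x) + A v (A u x) = (2 * ∑ j, c u j * c v j) • x
  dual : ∀ (T : Finset V) (v : V), v ∉ T → P (insert v T) →
      ∃ l : Fin n → ℝ, (∑ j, c v j * l j = 1) ∧ ∀ w ∈ T, ∑ j, c w j * l j = 0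

variable {P : Finset V → Prop} {c : V → Fin n → ℝ} {A : V → N →ₗ[ℝ] N}

theorem Clq.ee (h : Clq P c A) {u v : V} (huv : P {u, v}) (g : Finset (Fin n) → N) :
    eo (A u) (c u) (eo (A v) (c v) g) = -eo (A v) (c v) (eo (A u) (c u) g) := by
  have h1 := eo_eo (A u) (A v) (c u) (c v) g
  have h2 : pt (A u) (pt (A v) g) + pt (A v) (pt (A u) g) = (2 * ∑ j, c u j * c v j) • g := by
    funext a
    exact h.anti u v huv (g a)
  rw [h2, sub_self] at h1
  exact eq_neg_of_add_eq_zero_left h1

theorem Clq.ee_self (h : Clq P c A) {v : V} (hv : P {v}) (g : Finset (Fin n) → N) :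
    eo (A v) (c v) (eo (A v) (c v) g) = 0 := by
  have h1 := h.ee (u := v) (v := v) (by rw [Finset.pair_eq_singleton]; exact hv) g
  have h2 : (2 : ℝ) • eo (A v) (c v) (eo (A v) (c v) g) = 0 := by
    rw [two_smul]
    nth_rewrite 2 [h1]
    rw [add_neg_cancel]
  exact (smul_eq_zero.1 h2).resolve_left two_ne_zero

/-- the common kernel -/
def Ke (c : V → Fin n → ℝ) (A : V → N →ₗ[ℝ] N) (T : Finset V) : Submodule ℝ (Finset (Fin n) → N) where
  carrier := {x | ∀ w ∈ T, eo (A w) (c w) x = 0}
  zero_mem' := fun w _ => map_zero _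
  add_mem' := fun {x y} hx hy w hw => by rw [map_add, hx w hw, hy w hw, add_zero]
  smul_mem' := fun t {x} hx w hw => by rw [map_smul, hx w hw, smul_zero]

theorem Ke_mono {S T : Finset V} (h : S ⊆ T) : Ke c A T ≤ Ke c A S := fun x hx w hw => hx w (h hw)

/-- freeness: contraction with `l` -/
theorem Clq.contract (h : Clq P c A) {T : Finset V} {v : V} {l : Fin n → ℝ} (hl1 : ∑ j, c v j * l j = 1)
    (hl2 : ∀ w ∈ T, ∑ j, c w j * l j = 0) {x : Finset (Fin n) → N} (hx : x ∈ Ke c A (insert v T)) :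
    cm l x ∈ Ke c A T ∧ eo (A v) (c v) (cm l x) = x := by
  constructor
  · intro w hw
    have h1 := cm_eo (A w) (c w) l x
    rw [hx w (Finset.mem_insert_of_mem hw), map_zero, zero_add, hl2 w hw, zero_smul] at h1
    exact h1
  · have h1 := cm_eo (A v) (c v) l x
    rw [hx v (Finset.mem_insert_self v T), map_zero, zero_add, hl1, one_smul] at h1
    exact h1

theorem Clq.raise (h : Clq P c A) {T : Finset V} {v : V} (hP : P (insert v T)) {x : Finset (Fin n) → N}
    (hx : x ∈ Ke c A T) : eo (A v) (c v) x ∈ Ke c A (insert v T) := by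
  intro w hw
  rcases Finset.mem_insert.1 hw with rfl | hw'
  · exact h.ee_self (h.down _ _ (Finset.singleton_subset_iff.2 (Finset.mem_insert_self w T)) hP) x
  · rw [h.ee (h.down _ _ (Finset.insert_subset hw (Finset.singleton_subset_iff.2 (Finset.mem_insert_self v T))) hP),
      hx w hw', map_zero, neg_zero]

/-- the component of degree `d + 1` of `e_v x`, `x` of degree at most `d` -/
theorem cmp_eo {d : ℕ} {x : Finset (Fin n) → N} (hx : Le d x) (A : N →ₗ[ℝ] N) (c : Fin n → ℝ) :
    cmp (d + 1) (eo A c x) = cp c (cmp d x) := by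
  have h1 : cmp (d + 1) (eo A c x) = cmp (d + 1) (cp c x) := by
    funext a
    rw [cmp_apply, cmp_apply]
    split_ifs with ha
    · rw [eo_apply, Pi.add_apply, Pi.sub_apply, (hx.pt A).par a (by omega),
        ((hx.mono (by omega : d ≤ d + 1)).cm c) a (by omega), zero_add, sub_zero]
    · rfl
  have h2 : x = cmp d x + (x - cmp d x) := by abel
  have h3 : cmp (d + 1) (cp c (x - cmp d x)) = 0 := by
    funext a
    rw [cmp_apply]
    split_ifs with ha
    · rw [cp_apply, Finset.sum_apply]
      refine Finset.sum_eq_zero fun j _ => ?_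
      rw [Pi.smul_apply]
      by_cases hj : j ∈ a
      · have hc : (a.erase j).card = d := by rw [Finset.card_erase_of_mem hj]; omega
        rw [ep_of_mem hj, Pi.sub_apply, cmp_apply, if_pos hc, sub_self, smul_zero, smul_zero]
      · rw [ep_of_notMem hj, smul_zero]
    · rfl
  rw [h1]
  conv_lhs => rw [h2]
  rw [map_add, map_add, h3, add_zero]
  exact cmp_of_Dg (Dg_cp (Dg_cmp d x) c)

/-- the leading component of an element of the common kernel is killed by the `c_v⁺` -/
theorem lead_mem {T : Finset V} {d : ℕ} {x : Finset (Fin n) → N} (hx : x ∈ Ke c A T) (hd : Le d x) :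
    cmp d x ∈ Kx c T d := by
  refine ⟨fun w hw => ?_, Dg_cmp d x⟩
  rw [← cmp_eo hd (A w) (c w), hx w hw, map_zero]

/-- A3: leading components lift -/
theorem Clq.lift (h : Clq P c A) {T : Finset V} (hT : P T) {d : ℕ} {x : Finset (Fin n) → N} (hx : x ∈ Kx c T d) :
    ∃ X, X ∈ Ke c A T ∧ Le d X ∧ cmp d X = x := by
  induction T using Finset.induction_on generalizing d x with
  | empty => exact ⟨x, fun w hw => absurd hw (Finset.notMem_empty w), Le.of_Dg hx.2, cmp_of_Dg hx.2⟩
  | insert v T hv ih =>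
    obtain ⟨l, hl1, hl2⟩ := h.dual T v hv hT
    have e1 : cp (c v) (cm l x) = x := by
      have h1 := cp_cm (c v) l x
      rw [hx.1 v (Finset.mem_insert_self v T), map_zero, add_zero, hl1, one_smul] at h1
      exact h1
    cases d with
    | zero =>
      rw [Dg_cm_zero hx.2, map_zero] at e1
      rw [← e1]
      exact ⟨0, Submodule.zero_mem _, fun a _ => rfl, map_zero _⟩
    | succ d =>
      have hx' : cm l x ∈ Kx c T d := by
        refine ⟨fun w hw => ?_, Dg_cm hx.2 l⟩
        have h1 := cp_cm (c w) l x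
        rw [hx.1 w (Finset.mem_insert_of_mem hw), map_zero, add_zero, hl2 w hw, zero_smul] at h1
        exact h1
      obtain ⟨X, h1, h2, h3⟩ := ih (h.down _ _ (Finset.subset_insert v T) hT) hx'
      refine ⟨eo (A v) (c v) X, h.raise hT h1, h2.eo _ _, ?_⟩
      rw [cmp_eo h2, h3, e1]

/-- lowering the degree: a chain on the link of `m` with boundary of degree at most `|m| + i` is congruent modulo
boundaries to a chain of degree at most `|m| + i` -/
theorem Clq.lower (h : Clq P c A) (hr : Function.Injective r) (hS : SphN (Finset (Fin n) → N) r P n)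
    {m : Finset V} {i : ℕ} (D : ℕ) {z : Finset V → (Finset (Fin n) → N)} (hz : Spt P m i z)
    (hzK : ∀ S, z S ∈ Ke c A (m ∪ S)) (hzD : ∀ S, Le (m.card + i + D) (z S))
    (hb : ∀ S, Le (m.card + i) (bd r z S)) :
    ∃ y : Finset V → (Finset (Fin n) → N), Spt P m (i + 1) y ∧ (∀ S, y S ∈ Ke c A (m ∪ S)) ∧
      (∀ S, Le (m.card + i + D) (y S)) ∧ ∀ S, Le (m.card + i) ((z - bd r y) S) := by
  induction D generalizing z with
  | zero =>
    refine ⟨0, fun S hh => absurd rfl hh, fun S => Submodule.zero_mem _, fun S a _ => rfl, fun S => ?_⟩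
    rw [map_zero, sub_zero]
    exact hzD S
  | succ D ih =>
    -- leading component
    have hbc : bd r (fun S => (cmp (m.card + (i + D + 1)) : (Finset (Fin n) → N) →ₗ[ℝ] _).toAddMonoidHom (z S)) = 0 := by
      rw [bd_map]
      funext S
      funext a
      show cmp (m.card + (i + D + 1)) (bd r z S) a = 0
      rw [cmp_apply]
      split_ifs with ha
      · exact hb S a (by omega)
      · rfl
    obtain ⟨y0, hy0, hy0K, hy0b⟩ := ex_full hr h.down hS h.dual m (i := i) (d := i + D + 1) (by omega)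
      (fun S => cmp (m.card + (i + D + 1)) (z S))
      (fun S hh => hz S fun h0 => hh (by show cmp _ (z S) = 0; rw [h0, map_zero]))
      (fun S => lead_mem (hzK S) (by have := hzD S; rwa [show m.card + i + (D + 1) = m.card + (i + D + 1) by ring] at this))
      hbc
    have hlift : ∀ S, ∃ X, X ∈ Ke c A (m ∪ S) ∧ Le (m.card + (i + D + 1)) X ∧
        cmp (m.card + (i + D + 1)) X = y0 S ∧ (y0 S = 0 → X = 0) := by
      intro S
      by_cases h0 : y0 S = 0
      · exact ⟨0, Submodule.zero_mem _, fun a _ => rfl, by rw [h0, map_zero], fun _ => rfl⟩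
      · obtain ⟨X, h1, h2, h3⟩ := h.lift (hy0 S h0).1 (hy0K S)
        exact ⟨X, h1, h2, h3, fun hh => absurd hh h0⟩
    choose y1 hy1K hy1D hy1c hy10 using hlift
    have hy1 : Spt P m (i + 1) y1 := fun S hh => hy0 S fun h0 => hh (hy10 S h0)
    have hby1K : ∀ S, bd r y1 S ∈ Ke c A (m ∪ S) := by
      intro S
      rw [bd_apply]
      refine Submodule.sum_mem _ fun v _ => zsmul_mem (Ke_mono ?_ (hy1K (insert v S))) _
      exact Finset.union_subset_union_right (Finset.subset_insert v S)
    have hby1D : ∀ S, Le (m.card + (i + D + 1)) (bd r y1 S) := by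
      intro S
      rw [bd_apply]
      exact Le.sum fun v _ => (hy1D _).zsmul _
    obtain ⟨y2, h1, h2, h3, h4⟩ := ih (z := z - bd r y1)
      (fun S hh => by
        by_cases h0 : z S = 0
        · refine hy1.bd (r := r) h.down S fun h5 => hh ?_
          rw [Pi.sub_apply, h0, h5, sub_zero]
        · exact hz S h0)
      (fun S => Submodule.sub_mem _ (hzK S) (hby1K S))
      (fun S a ha => by
        by_cases h5 : a.card = m.card + (i + D + 1)
        · have e1 : cmp (m.card + (i + D + 1)) ((z - bd r y1) S) = 0 := by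
            rw [Pi.sub_apply, map_sub]
            have e2 := congrFun (bd_map (r := r) (cmp (m.card + (i + D + 1)) :
              (Finset (Fin n) → N) →ₗ[ℝ] _).toAddMonoidHom y1) S
            have e3 : (fun S => (cmp (m.card + (i + D + 1)) : (Finset (Fin n) → N) →ₗ[ℝ] _).toAddMonoidHom (y1 S)) = y0 :=
              funext hy1c
            rw [e3, hy0b] at e2
            rw [sub_eq_zero]
            exact e2
          have e4 := congrFun e1 a
          rw [cmp_apply, if_pos h5] at e4
          exact e4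
        · rw [Pi.sub_apply, Pi.sub_apply, hzD S a (by omega), hby1D S a (by omega), sub_zero])
      (fun S => by rw [map_sub, bd_bd hr, sub_zero]; exact hb S)
    refine ⟨y1 + y2, hy1.add h1, fun S => Submodule.add_mem _ (hy1K S) (h2 S), fun S => ?_, fun S => ?_⟩
    · have h5 := hy1D S
      rw [show m.card + (i + D + 1) = m.card + i + (D + 1) by ring] at h5
      exact h5.add ((h3 S).mono (by omega))
    · rw [map_add, ← sub_sub]
      exact h4 S

end lead

end Pool.Agent.Helper34.Ch
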