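import Pool.Agent.Helper34.Car.Chain

/-! # A2: exactness of the complexes with coefficients `⋂ ker c_v⁺` -/

set_option linter.unusedSectionVars false
set_option linter.unusedVariables false

namespace Pool.Agent.Helper34.Ch
open Finset Singer Pool.Agent.Helper34.Car

section ch
variable {V : Type*} [Fintype V] [DecidableEq V] {M M' : Type*} [AddCommGroup M] [AddCommGroup M'] {r : V → ℕ}

theorem iv_map (T : M →+ M') (v : V) (z : Finset V → M) : iv r v (fun S => T (z S)) = fun S => T (iv r v z S) := by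
  funext S
  by_cases hv : v ∈ S
  · rw [iv_of_mem hv, iv_of_mem hv, map_zero]
  · rw [iv_of_notMem hv, iv_of_notMem hv, map_zsmul]

theorem ev_map (T : M →+ M') (v : V) (z : Finset V → M) : ev r v (fun S => T (z S)) = fun S => T (ev r v z S) := by
  funext S
  by_cases hv : v ∈ S
  · rw [ev_of_mem hv, ev_of_mem hv, map_zsmul]
  · rw [ev_of_notMem hv, ev_of_notMem hv, map_zero]

theorem bd_map (T : M →+ M') (z : Finset V → M) : bd r (fun S => T (z S)) = fun S => T (bd r z S) := by
  funext S
  rw [bd_apply, bd_apply, map_sum]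
  exact Finset.sum_congr rfl fun v _ => (map_zsmul _ _ _).symm

end ch

section mixed
variable {V : Type*} [Fintype V] [DecidableEq V] {n : ℕ} {N : Type*} [AddCommGroup N] [Module ℝ N] {r : V → ℕ}

/-- support condition -/
def Spt (P : Finset V → Prop) (m : Finset V) (i : ℕ) {M : Type*} [Zero M] (z : Finset V → M) : Prop :=
  ∀ S, z S ≠ 0 → P (m ∪ S) ∧ Disjoint m S ∧ S.card = i

/-- coefficients -/
def Kx (c : V → Fin n → ℝ) (T : Finset V) (D : ℕ) : Submodule ℝ (Finset (Fin n) → N) where
  carrier := {x | (∀ w ∈ T, cp (c w) x = 0) ∧ Dg D x}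
  zero_mem' := ⟨fun w _ => map_zero _, fun a _ => rfl⟩
  add_mem' := fun {x y} hx hy => ⟨fun w hw => by rw [map_add, hx.1 w hw, hy.1 w hw, add_zero], Dg_add hx.2 hy.2⟩
  smul_mem' := fun t {x} hx => ⟨fun w hw => by rw [map_smul, hx.1 w hw, smul_zero], Dg_smul hx.2 t⟩

theorem mem_Kx {c : V → Fin n → ℝ} {T : Finset V} {D : ℕ} {x : Finset (Fin n) → N} :
    x ∈ Kx c T D ↔ (∀ w ∈ T, cp (c w) x = 0) ∧ Dg D x := Iff.rfl

/-- mixed chains -/
def Cm (P : Finset V → Prop) (c : V → Fin n → ℝ) (A m : Finset V) (i d : ℕ) (z : Finset V → (Finset (Fin n) → N)) :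
    Prop := Spt P m i z ∧ ∀ S, z S ∈ Kx c (m ∪ (S ∩ A)) (m.card + d)

/-- exactness of the mixed complex -/
def Ex (N : Type*) [AddCommGroup N] [Module ℝ N] (r : V → ℕ) (P : Finset V → Prop) (c : V → Fin n → ℝ)
    (A m : Finset V) (i d : ℕ) : Prop :=
  ∀ z : Finset V → (Finset (Fin n) → N), Cm P c A m i d z → bd r z = 0 →
    ∃ y : Finset V → (Finset (Fin n) → N), Cm P c A m (i + 1) d y ∧ bd r y = z

theorem Spt.add {P : Finset V → Prop} {m : Finset V} {i : ℕ} {M : Type*} [AddCommGroup M] {z y : Finset V → M}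
    (hz : Spt P m i z) (hy : Spt P m i y) : Spt P m i (z + y) := by
  intro S h
  by_cases h1 : z S = 0
  · refine hy S fun h2 => h ?_
    rw [Pi.add_apply, h1, h2, add_zero]
  · exact hz S h1

theorem Spt.iv {P : Finset V → Prop} {m : Finset V} {i : ℕ} {M : Type*} [AddCommGroup M] {z : Finset V → M}
    (hz : Spt P m (i + 1) z) (v : V) : Spt P (insert v m) i (iv r v z) := by
  intro S h
  by_cases hv : v ∈ S
  · exact absurd (iv_of_mem hv z) h
  · rw [iv_of_notMem hv] at h
    have h0 : z (insert v S) ≠ 0 := fun h1 => h (by rw [h1, smul_zero])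
    obtain ⟨h1, h2, h4⟩ := hz _ h0
    rw [Finset.card_insert_of_notMem hv] at h4
    refine ⟨?_, ?_, by omega⟩
    · rwa [Finset.insert_union, ← Finset.union_insert]
    · rw [Finset.disjoint_insert_left]
      exact ⟨hv, Finset.disjoint_of_subset_right (Finset.subset_insert v S) h2⟩

theorem Spt.ev {P : Finset V → Prop} {m : Finset V} {i : ℕ} {M : Type*} [AddCommGroup M] {z : Finset V → M}
    {v : V} (hvm : v ∉ m) (hz : Spt P (insert v m) i z) : Spt P m (i + 1) (ev r v z) := by
  intro S h
  by_cases hv : v ∈ S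
  · rw [ev_of_mem hv] at h
    have h0 : z (S.erase v) ≠ 0 := fun h1 => h (by rw [h1, smul_zero])
    obtain ⟨h1, h2, h4⟩ := hz _ h0
    rw [Finset.card_erase_of_mem hv] at h4
    have hc : 0 < S.card := Finset.card_pos.2 ⟨v, hv⟩
    rw [Finset.disjoint_insert_left] at h2
    refine ⟨?_, ?_, by omega⟩
    · rwa [Finset.insert_union, ← Finset.union_insert, Finset.insert_erase hv] at h1
    · rw [← Finset.insert_erase hv, Finset.disjoint_insert_right]
      exact ⟨hvm, h2.2⟩
  · exact absurd (ev_of_notMem hv z) h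

theorem Spt.bd {P : Finset V → Prop} (hP : ∀ S T, S ⊆ T → P T → P S) {m : Finset V} {i : ℕ} {M : Type*}
    [AddCommGroup M] {z : Finset V → M} (hz : Spt P m (i + 1) z) : Spt P m i (bd r z) := by
  intro S h
  rw [bd_apply] at h
  obtain ⟨v, hv, h1⟩ := Finset.exists_ne_zero_of_sum_ne_zero h
  rw [Finset.mem_compl] at hv
  have h0 : z (insert v S) ≠ 0 := fun h2 => h1 (by rw [h2, smul_zero])
  obtain ⟨h2, h3, h4⟩ := hz _ h0
  rw [Finset.card_insert_of_notMem hv] at h4
  refine ⟨hP _ _ (Finset.union_subset_union_right (Finset.subset_insert v S)) h2,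
    Finset.disjoint_of_subset_right (Finset.subset_insert v S) h3, by omega⟩

/-- the sphere condition for constant coefficients -/
def SphN (M : Type*) [AddCommGroup M] (r : V → ℕ) (P : Finset V → Prop) (n : ℕ) : Prop :=
  ∀ m i, i + m.card < n → ∀ z : Finset V → M, Spt P m i z → bd r z = 0 →
    ∃ y : Finset V → M, Spt P m (i + 1) y ∧ bd r y = z

theorem ex_empty {P : Finset V → Prop} {c : V → Fin n → ℝ} (hS : SphN (Finset (Fin n) → N) r P n)
    (m : Finset V) {i d : ℕ} (hi : i < d) : Ex N r P c ∅ m i d := by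
  intro z hz hb
  by_cases hd : m.card + d ≤ n
  · obtain ⟨y, hy, hyz⟩ := hS m i (by omega) z hz.1 hb
    obtain ⟨q, hq⟩ := Submodule.exists_isCompl (Kx (N := N) c m (m.card + d))
    set π := Submodule.subtype (Kx (N := N) c m (m.card + d)) ∘ₗ Submodule.projectionOnto _ q hq with hπ
    have hπ1 : ∀ x, π x ∈ Kx (N := N) c m (m.card + d) := fun x => by
      rw [hπ, LinearMap.comp_apply]
      exact Submodule.coe_mem _
    have hπ2 : ∀ x ∈ Kx (N := N) c m (m.card + d), π x = x := fun x hx => by
      rw [hπ, LinearMap.comp_apply]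
      have := Submodule.projectionOnto_apply_left hq ⟨x, hx⟩
      rw [this]
      rfl
    refine ⟨fun S => π.toAddMonoidHom (y S), ⟨fun S h => ?_, fun S => ?_⟩, ?_⟩
    · refine hy S fun h1 => h ?_
      show π.toAddMonoidHom (y S) = 0
      rw [h1, map_zero]
    · rw [Finset.inter_empty, Finset.union_empty]
      exact hπ1 _
    · rw [bd_map, hyz]
      funext S
      refine hπ2 _ ?_
      have := hz.2 S
      rwa [Finset.inter_empty, Finset.union_empty] at this
  · refine ⟨0, ⟨fun S h => absurd rfl h, fun S => Submodule.zero_mem _⟩, ?_⟩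
    rw [map_zero]
    funext S
    have h1 := (hz.2 S).2
    have : z S = 0 := by
      funext a
      refine h1 a ?_
      have := a.card_le_univ
      rw [Fintype.card_fin] at this
      omega
    rw [this]
    rfl

theorem ex_step (hr : Function.Injective r) {P : Finset V → Prop} (hP : ∀ S T, S ⊆ T → P T → P S) {c : V → Fin n → ℝ}
    (hl : ∀ (T : Finset V) (v : V), v ∉ T → P (insert v T) →
      ∃ l : Fin n → ℝ, (∑ j, c v j * l j = 1) ∧ ∀ w ∈ T, ∑ j, c w j * l j = 0)
    {A m : Finset V} {v : V} {i d : ℕ} (hv : v ∉ A) (h1 : Ex N r P c A m i d) (h2 : Ex N r P c A (insert v m) i d) :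
    Ex N r P c (insert v A) m i d := by
  intro z hz hb
  by_cases hvm : v ∈ m
  · -- nothing changes
    have e : ∀ (y : Finset V → (Finset (Fin n) → N)) (j : ℕ), Cm P c (insert v A) m j d y ↔ Cm P c A m j d y := by
      intro y j
      unfold Cm
      refine and_congr_right fun hs => forall_congr' fun S => ?_
      by_cases hy : y S = 0
      · rw [hy]
        exact ⟨fun _ => Submodule.zero_mem _, fun _ => Submodule.zero_mem _⟩
      · have hvS : v ∉ S := fun h => Finset.disjoint_left.1 (hs S hy).2.1 hvm h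
        rw [Finset.inter_insert_of_notMem hvS]
    obtain ⟨y, hy, hyz⟩ := h1 z ((e z i).1 hz) hb
    exact ⟨y, (e y _).2 hy, hyz⟩
  have hcard : (insert v m).card + d = m.card + d + 1 := by
    rw [Finset.card_insert_of_notMem hvm]
    omega
  obtain ⟨y, hy, hyz⟩ := h1 z ⟨hz.1, fun S => ⟨fun w hw => (hz.2 S).1 w (Finset.union_subset_union_right
    (Finset.inter_subset_inter_left (Finset.subset_insert v A)) hw), (hz.2 S).2⟩⟩ hb
  -- the chain `c_v⁺ y^v`
  set C : (Finset (Fin n) → N) →+ (Finset (Fin n) → N) := (cp (c v)).toAddMonoidHom with hC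
  have hCap : ∀ x, C x = cp (c v) x := fun x => rfl
  have hCm : Cm P c A (insert v m) i d (fun S => C (iv r v y S)) := by
    refine ⟨fun S h => ?_, fun S => ?_⟩
    · exact hy.1.iv v S fun h3 => h (by show C (iv r v y S) = 0; rw [h3, map_zero])
    · rw [mem_Kx]
      by_cases hvS : v ∈ S
      · simp only [iv_of_mem hvS, map_zero]
        exact ⟨fun w _ => trivial, fun a _ => rfl⟩
      · simp only [iv_of_notMem hvS, hCap, map_zsmul]
        have h3 := hy.2 (insert v S)
        have e1 : insert v S ∩ A = S ∩ A := by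
          rw [Finset.insert_inter_of_notMem hv]
        rw [e1] at h3
        constructor
        · intro w hw
          rw [Finset.insert_union, Finset.mem_insert] at hw
          rcases hw with rfl | hw
          · rw [cp_self, smul_zero]
          · have h4 := cp_cp (c w) (c v) (y (insert v S))
            rw [h3.1 w hw, map_zero, add_zero] at h4
            rw [h4, smul_zero]
        · rw [hcard]
          intro a ha
          rw [Pi.smul_apply, Dg_cp h3.2 _ a ha, smul_zero]
  have hbC : bd r (fun S => C (iv r v y S)) = 0 := by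
    rw [bd_map, bd_iv hr, hyz]
    funext S
    rw [Pi.neg_apply, map_neg]
    by_cases hvS : v ∈ S
    · rw [iv_of_mem hvS, map_zero, neg_zero]; rfl
    · rw [iv_of_notMem hvS, map_zsmul, hCap, (hz.2 (insert v S)).1 v (Finset.mem_union_right _
        (Finset.mem_inter.2 ⟨Finset.mem_insert_self v S, Finset.mem_insert_self v A⟩)), smul_zero, neg_zero]
      rfl
  obtain ⟨u, hu, huy⟩ := h2 _ hCm hbC
  -- divide by `c_v`
  have hdiv : ∀ S, ∃ x : Finset (Fin n) → N, C x = u S ∧ x ∈ Kx c (m ∪ (S ∩ A)) (m.card + d) ∧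
      (u S = 0 → x = 0) := by
    intro S
    by_cases hu0 : u S = 0
    · exact ⟨0, by rw [hu0, map_zero], Submodule.zero_mem _, fun _ => rfl⟩
    · obtain ⟨h3, h4, h5⟩ := hu.1 S hu0
      rw [Finset.disjoint_insert_left] at h4
      obtain ⟨l, hl1, hl2⟩ := hl (m ∪ S) v (fun h => (Finset.mem_union.1 h).elim hvm h4.1)
        (by rwa [Finset.insert_union] at h3)
      obtain ⟨h6, h7⟩ := hu.2 S
      refine ⟨cm l (u S), ?_, ⟨fun w hw => ?_, ?_⟩, fun h => absurd h hu0⟩
      · have h8 := cp_cm (c v) l (u S)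
        rw [h6 v (Finset.mem_union_left _ (Finset.mem_insert_self v m)), map_zero, add_zero, hl1, one_smul] at h8
        exact h8
      · have h8 := cp_cm (c w) l (u S)
        rw [h6 w (Finset.union_subset_union_left (Finset.subset_insert v m) hw), map_zero, add_zero,
          hl2 w (Finset.union_subset_union_right Finset.inter_subset_left hw), zero_smul] at h8
        exact h8
      · rw [hcard] at h7
        exact Dg_cm h7 l
  choose u' hu1 hu2 hu3 using hdiv
  have hsu : Spt P (insert v m) (i + 1) u' := fun S h => hu.1 S fun h3 => h (hu3 S h3)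
  have hv0 : iv r v u' = 0 := by
    refine iv_eq_zero fun S hS => ?_
    by_contra h
    exact Finset.disjoint_left.1 (hsu S h).2.1 (Finset.mem_insert_self v m) hS
  have hCu : (fun S => C (u' S)) = u := funext hu1
  have hKm : ∀ T T' : Finset V, T ⊆ T' → ∀ x : Finset (Fin n) → N, x ∈ Kx c T' (m.card + d) →
      x ∈ Kx c T (m.card + d) := fun T T' h x hx => ⟨fun w hw => hx.1 w (h hw), hx.2⟩
  have hev : ∀ S, ev r v u' S ∈ Kx (N := N) c (m ∪ (S ∩ A)) (m.card + d) := by
    intro S
    by_cases hvS : v ∈ S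
    · rw [ev_of_mem hvS]
      have h3 := hu2 (S.erase v)
      have e1 : S.erase v ∩ A = S ∩ A := by
        rw [Finset.erase_inter, Finset.erase_eq_of_notMem (fun h => hv (Finset.mem_inter.1 h).2)]
      rw [e1] at h3
      exact zsmul_mem h3 _
    · rw [ev_of_notMem hvS]
      exact Submodule.zero_mem _
  have hbev : ∀ S, bd r (ev r v u') S ∈ Kx (N := N) c (m ∪ (S ∩ A)) (m.card + d) := by
    intro S
    rw [bd_apply]
    refine Submodule.sum_mem _ fun w _ => zsmul_mem (hKm _ _ ?_ _ (hev (insert w S))) _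
    exact Finset.union_subset_union_right (Finset.inter_subset_inter_right (Finset.subset_insert w S))
  refine ⟨y + bd r (ev r v u'), ⟨hy.1.add ((hsu.ev hvm).bd hP), fun S => ?_⟩, ?_⟩
  · have hsum : (y + bd r (ev r v u')) S ∈ Kx (N := N) c (m ∪ (S ∩ A)) (m.card + d) := by
      rw [Pi.add_apply]
      exact Submodule.add_mem _ (hy.2 S) (hbev S)
    by_cases hvS : v ∈ S
    · refine ⟨fun w hw => ?_, hsum.2⟩
      rw [Finset.inter_insert_of_mem hvS, Finset.union_insert, Finset.mem_insert] at hw
      rcases hw with rfl | hw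
      · have e1 : iv r w (y + bd r (ev r w u')) = iv r w y - bd r u' := by
          have e2 := ev_iv_self (r := r) w u'
          rw [hv0, map_zero, zero_add] at e2
          have e3 := bd_iv hr w (ev r w u')
          rw [e2] at e3
          rw [map_add, e3, sub_neg_eq_add]
        have e4 := congrFun e1 (S.erase w)
        rw [iv_of_notMem (Finset.notMem_erase w S), Finset.insert_erase hvS, Pi.sub_apply] at e4
        have e5 : C (iv r w y (S.erase w)) = C (bd r u' (S.erase w)) := by
          have e6 := congrFun huy (S.erase w)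
          have e7 := congrFun (bd_map (r := r) C u') (S.erase w)
          rw [hCu, e6] at e7
          exact e7
        have e8 := congrArg C e4
        rw [map_sub, e5, sub_self, map_zsmul] at e8
        have e9 := congrArg (fun x => sgz r w (S.erase w) • x) e8
        simp only [smul_smul, sgz_sq, one_smul, smul_zero] at e9
        exact e9
      · exact hsum.1 w hw
    · rw [Finset.inter_insert_of_notMem hvS]
      exact hsum
  · rw [map_add, bd_bd hr, add_zero, hyz]

/-- A2: exactness of the complex with coefficients `⋂ ker c_v⁺` -/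
theorem ex_all (hr : Function.Injective r) {P : Finset V → Prop} (hP : ∀ S T, S ⊆ T → P T → P S)
    {c : V → Fin n → ℝ} (hS : SphN (Finset (Fin n) → N) r P n)
    (hl : ∀ (T : Finset V) (v : V), v ∉ T → P (insert v T) →
      ∃ l : Fin n → ℝ, (∑ j, c v j * l j = 1) ∧ ∀ w ∈ T, ∑ j, c w j * l j = 0)
    (A m : Finset V) {i d : ℕ} (hi : i < d) : Ex N r P c A m i d := by
  induction A using Finset.induction_on generalizing m with
  | empty => exact ex_empty hS m hi
  | insert v A hv ih => exact ex_step hr hP hl hv (ih m) (ih (insert v m))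

/-- A2, final form: a cycle `z` on the link of `m` with `c_v⁺ z_S = 0` for `v ∈ m ∪ S`, of degree `|m| + d`, is
the boundary of such a chain, if `i < d` -/
theorem ex_full (hr : Function.Injective r) {P : Finset V → Prop} (hP : ∀ S T, S ⊆ T → P T → P S)
    {c : V → Fin n → ℝ} (hS : SphN (Finset (Fin n) → N) r P n)
    (hl : ∀ (T : Finset V) (v : V), v ∉ T → P (insert v T) →
      ∃ l : Fin n → ℝ, (∑ j, c v j * l j = 1) ∧ ∀ w ∈ T, ∑ j, c w j * l j = 0)
    (m : Finset V) {i d : ℕ} (hi : i < d) (z : Finset V → (Finset (Fin n) → N)) (hz : Spt P m i z)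
    (hz2 : ∀ S, z S ∈ Kx c (m ∪ S) (m.card + d)) (hb : bd r z = 0) :
    ∃ y : Finset V → (Finset (Fin n) → N), Spt P m (i + 1) y ∧ (∀ S, y S ∈ Kx c (m ∪ S) (m.card + d)) ∧
      bd r y = z := by
  obtain ⟨y, hy, hyz⟩ := ex_all hr hP hS hl univ m hi z ⟨hz, fun S => by rw [Finset.inter_univ]; exact hz2 S⟩ hb
  refine ⟨y, hy.1, fun S => ?_, hyz⟩
  have := hy.2 S
  rwa [Finset.inter_univ] at this

end mixed

end Pool.Agent.Helper34.Ch
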