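import Mathlib

/-! # Creation and annihilation operators on functions `Finset (Fin m) → M` -/

set_option linter.unusedSectionVars false

namespace Pool.Agent.Helper34.Car
open Finset

variable {m : ℕ} {M : Type*} [AddCommGroup M] [Module ℝ M]

/-- the sign `(-1)^#{i ∈ a | i < j}` -/
def sg (j : Fin m) (a : Finset (Fin m)) : ℝ := (-1) ^ (a.filter (· < j)).card

/-- the sign of a pair -/
def sp (i j : Fin m) : ℝ := if i < j then -1 else 1

theorem sg_sq (j : Fin m) (a : Finset (Fin m)) : sg j a * sg j a = 1 := by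
  unfold sg
  rw [← pow_add, ← two_mul, pow_mul]
  norm_num

theorem sp_add {i j : Fin m} (h : i ≠ j) : sp i j + sp j i = 0 := by
  unfold sp
  rcases lt_or_gt_of_ne h with h1 | h1
  · rw [if_pos h1, if_neg (not_lt.2 h1.le)]
    norm_num
  · rw [if_neg (not_lt.2 h1.le), if_pos h1]
    norm_num

theorem sp_self (i : Fin m) : sp i i = 1 := by
  unfold sp
  rw [if_neg (lt_irrefl i)]

theorem sg_insert {i : Fin m} (j : Fin m) {a : Finset (Fin m)} (hi : i ∉ a) :
    sg j (insert i a) = sp i j * sg j a := by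
  unfold sg sp
  rw [Finset.filter_insert]
  split_ifs with h
  · rw [Finset.card_insert_of_notMem (fun hh => hi (Finset.mem_filter.1 hh).1), pow_succ]
    ring
  · rw [one_mul]

theorem sg_erase {i : Fin m} (j : Fin m) {a : Finset (Fin m)} (hi : i ∈ a) :
    sg j (a.erase i) = sp i j * sg j a := by
  have h := sg_insert j (Finset.notMem_erase i a)
  rw [Finset.insert_erase hi] at h
  have h2 : sp i j * sp i j = 1 := by
    unfold sp
    split_ifs <;> norm_num
  rw [h, ← mul_assoc, h2, one_mul]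

/-- creation -/
def ep (j : Fin m) : (Finset (Fin m) → M) →ₗ[ℝ] (Finset (Fin m) → M) where
  toFun g a := if j ∈ a then sg j a • g (a.erase j) else 0
  map_add' g h := by
    funext a
    simp only [Pi.add_apply]
    split_ifs
    · rw [smul_add]
    · rw [add_zero]
  map_smul' r g := by
    funext a
    simp only [Pi.smul_apply, RingHom.id_apply]
    split_ifs
    · rw [smul_comm]
    · rw [smul_zero]

/-- annihilation -/
def io (j : Fin m) : (Finset (Fin m) → M) →ₗ[ℝ] (Finset (Fin m) → M) where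
  toFun g a := if j ∈ a then 0 else sg j a • g (insert j a)
  map_add' g h := by
    funext a
    simp only [Pi.add_apply]
    split_ifs
    · rw [add_zero]
    · rw [smul_add]
  map_smul' r g := by
    funext a
    simp only [Pi.smul_apply, RingHom.id_apply]
    split_ifs
    · rw [smul_zero]
    · rw [smul_comm]

theorem ep_of_mem {j : Fin m} {a : Finset (Fin m)} (h : j ∈ a) (g : Finset (Fin m) → M) :
    ep j g a = sg j a • g (a.erase j) := if_pos h

theorem ep_of_notMem {j : Fin m} {a : Finset (Fin m)} (h : j ∉ a) (g : Finset (Fin m) → M) :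
    ep j g a = 0 := if_neg h

theorem io_of_mem {j : Fin m} {a : Finset (Fin m)} (h : j ∈ a) (g : Finset (Fin m) → M) :
    io j g a = 0 := if_pos h

theorem io_of_notMem {j : Fin m} {a : Finset (Fin m)} (h : j ∉ a) (g : Finset (Fin m) → M) :
    io j g a = sg j a • g (insert j a) := if_neg h

theorem ep_ep_self (j : Fin m) (g : Finset (Fin m) → M) : ep j (ep j g) = 0 := by
  funext a
  by_cases h : j ∈ a
  · rw [ep_of_mem h, ep_of_notMem (Finset.notMem_erase j a), smul_zero]
    rfl
  · rw [ep_of_notMem h]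
    rfl

theorem io_io_self (j : Fin m) (g : Finset (Fin m) → M) : io j (io j g) = 0 := by
  funext a
  by_cases h : j ∈ a
  · rw [io_of_mem h]
    rfl
  · rw [io_of_notMem h, io_of_mem (Finset.mem_insert_self j a), smul_zero]
    rfl

theorem ep_ep (i j : Fin m) (g : Finset (Fin m) → M) : ep i (ep j g) + ep j (ep i g) = 0 := by
  rcases eq_or_ne i j with rfl | hij
  · rw [ep_ep_self, add_zero]
  funext a
  rw [Pi.add_apply, Pi.zero_apply]
  by_cases hi : i ∈ a
  · by_cases hj : j ∈ a
    · rw [ep_of_mem hi, ep_of_mem hj, ep_of_mem (Finset.mem_erase.2 ⟨hij.symm, hj⟩),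
        ep_of_mem (Finset.mem_erase.2 ⟨hij, hi⟩), sg_erase j hi, sg_erase i hj,
        Finset.erase_right_comm, smul_smul, smul_smul, ← add_smul]
      have : sg i a * (sp i j * sg j a) + sg j a * (sp j i * sg i a) = 0 := by
        linear_combination (sg i a * sg j a) * sp_add hij
      rw [this, zero_smul]
    · rw [ep_of_mem hi, ep_of_notMem hj, ep_of_notMem (fun h => hj (Finset.mem_erase.1 h).2), smul_zero,
        add_zero]
  · rw [ep_of_notMem hi, zero_add]
    by_cases hj : j ∈ a
    · rw [ep_of_mem hj, ep_of_notMem (fun h => hi (Finset.mem_erase.1 h).2), smul_zero]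
    · rw [ep_of_notMem hj]

theorem io_io (i j : Fin m) (g : Finset (Fin m) → M) : io i (io j g) + io j (io i g) = 0 := by
  rcases eq_or_ne i j with rfl | hij
  · rw [io_io_self, add_zero]
  funext a
  rw [Pi.add_apply, Pi.zero_apply]
  by_cases hi : i ∈ a
  · rw [io_of_mem hi, zero_add]
    by_cases hj : j ∈ a
    · rw [io_of_mem hj]
    · rw [io_of_notMem hj, io_of_mem (Finset.mem_insert_of_mem hi), smul_zero]
  · by_cases hj : j ∈ a
    · rw [io_of_notMem hi, io_of_mem (Finset.mem_insert_of_mem hj), io_of_mem hj, smul_zero, add_zero]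
    · rw [io_of_notMem hi, io_of_notMem hj, io_of_notMem (fun h => (Finset.mem_insert.1 h).elim
        (fun e => hij e.symm) hj), io_of_notMem (fun h => (Finset.mem_insert.1 h).elim hij hi),
        sg_insert j hi, sg_insert i hj, Finset.insert_comm, smul_smul, smul_smul, ← add_smul]
      have : sg i a * (sp i j * sg j a) + sg j a * (sp j i * sg i a) = 0 := by
        linear_combination (sg i a * sg j a) * sp_add hij
      rw [this, zero_smul]

theorem ep_io_self (j : Fin m) (g : Finset (Fin m) → M) : ep j (io j g) + io j (ep j g) = g := by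
  funext a
  rw [Pi.add_apply]
  by_cases h : j ∈ a
  · rw [ep_of_mem h, io_of_notMem (Finset.notMem_erase j a), io_of_mem h, sg_erase j h, sp_self, one_mul,
      smul_smul, sg_sq, one_smul, add_zero, Finset.insert_erase h]
  · rw [ep_of_notMem h, io_of_notMem h, ep_of_mem (Finset.mem_insert_self j a), sg_insert j h, sp_self,
      one_mul, smul_smul, sg_sq, one_smul, zero_add, Finset.erase_insert h]

theorem ep_io_ne {i j : Fin m} (hij : i ≠ j) (g : Finset (Fin m) → M) :
    ep i (io j g) + io j (ep i g) = 0 := by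
  funext a
  rw [Pi.add_apply, Pi.zero_apply]
  by_cases hj : j ∈ a
  · rw [io_of_mem hj, add_zero]
    by_cases hi : i ∈ a
    · rw [ep_of_mem hi, io_of_mem (Finset.mem_erase.2 ⟨hij.symm, hj⟩), smul_zero]
    · rw [ep_of_notMem hi]
  · rw [io_of_notMem hj]
    by_cases hi : i ∈ a
    · rw [ep_of_mem hi, ep_of_mem (Finset.mem_insert_of_mem hi),
        io_of_notMem (fun h => hj (Finset.mem_erase.1 h).2), sg_erase j hi, sg_insert i hj,
        Finset.erase_insert_of_ne hij.symm, smul_smul, smul_smul, ← add_smul]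
      have : sg i a * (sp i j * sg j a) + sg j a * (sp j i * sg i a) = 0 := by
        linear_combination (sg i a * sg j a) * sp_add hij
      rw [this, zero_smul]
    · rw [ep_of_notMem hi, ep_of_notMem (fun h => (Finset.mem_insert.1 h).elim hij hi), smul_zero, add_zero]

theorem ep_io (i j : Fin m) (g : Finset (Fin m) → M) :
    ep i (io j g) + io j (ep i g) = (if i = j then (1:ℝ) else 0) • g := by
  split_ifs with h
  · rw [h, ep_io_self, one_smul]
  · rw [ep_io_ne h, zero_smul]

/-! ### Linear combinations -/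

/-- `c⁺` -/
noncomputable def cp (c : Fin m → ℝ) : (Finset (Fin m) → M) →ₗ[ℝ] (Finset (Fin m) → M) := ∑ j, c j • ep j

/-- `c⁻` -/
noncomputable def cm (c : Fin m → ℝ) : (Finset (Fin m) → M) →ₗ[ℝ] (Finset (Fin m) → M) := ∑ j, c j • io j

theorem cp_apply (c : Fin m → ℝ) (g : Finset (Fin m) → M) : cp c g = ∑ j, c j • ep j g := by
  unfold cp
  rw [LinearMap.sum_apply]
  rfl

theorem cm_apply (c : Fin m → ℝ) (g : Finset (Fin m) → M) : cm c g = ∑ j, c j • io j g := by
  unfold cm
  rw [LinearMap.sum_apply]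
  rfl

theorem cp_add (c d : Fin m → ℝ) (g : Finset (Fin m) → M) : cp (c + d) g = cp c g + cp d g := by
  simp only [cp_apply, Pi.add_apply, add_smul, Finset.sum_add_distrib]

theorem cp_smul (r : ℝ) (c : Fin m → ℝ) (g : Finset (Fin m) → M) : cp (r • c) g = r • cp c g := by
  simp only [cp_apply, Pi.smul_apply, smul_eq_mul, mul_smul, Finset.smul_sum]

theorem cm_add (c d : Fin m → ℝ) (g : Finset (Fin m) → M) : cm (c + d) g = cm c g + cm d g := by
  simp only [cm_apply, Pi.add_apply, add_smul, Finset.sum_add_distrib]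

theorem cm_smul (r : ℝ) (c : Fin m → ℝ) (g : Finset (Fin m) → M) : cm (r • c) g = r • cm c g := by
  simp only [cm_apply, Pi.smul_apply, smul_eq_mul, mul_smul, Finset.smul_sum]

theorem cp_cp (c d : Fin m → ℝ) (g : Finset (Fin m) → M) : cp c (cp d g) + cp d (cp c g) = 0 := by
  simp only [cp_apply, map_sum, map_smul, Finset.smul_sum]
  rw [Finset.sum_comm, ← Finset.sum_add_distrib]
  refine Finset.sum_eq_zero fun i _ => ?_
  rw [← Finset.sum_add_distrib]
  refine Finset.sum_eq_zero fun j _ => ?_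
  rw [smul_comm (d j) (c i), ← smul_add, ← smul_add, ep_ep, smul_zero, smul_zero]

theorem cm_cm (c d : Fin m → ℝ) (g : Finset (Fin m) → M) : cm c (cm d g) + cm d (cm c g) = 0 := by
  simp only [cm_apply, map_sum, map_smul, Finset.smul_sum]
  rw [Finset.sum_comm, ← Finset.sum_add_distrib]
  refine Finset.sum_eq_zero fun i _ => ?_
  rw [← Finset.sum_add_distrib]
  refine Finset.sum_eq_zero fun j _ => ?_
  rw [smul_comm (d j) (c i), ← smul_add, ← smul_add, io_io, smul_zero, smul_zero]

theorem cp_cm (c d : Fin m → ℝ) (g : Finset (Fin m) → M) :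
    cp c (cm d g) + cm d (cp c g) = (∑ j, c j * d j) • g := by
  simp only [cp_apply, cm_apply, map_sum, map_smul, Finset.smul_sum]
  rw [Finset.sum_comm (f := fun x x_1 => c x • d x_1 • (io x_1) ((ep x) g)), ← Finset.sum_add_distrib]
  have h1 : ∀ j, (∑ i, d j • c i • ep i (io j g)) + ∑ i, c i • d j • io j (ep i g) = (c j * d j) • g := by
    intro j
    rw [← Finset.sum_add_distrib]
    have h2 : ∀ i, d j • c i • ep i (io j g) + c i • d j • io j (ep i g)
        = (c i * d j * (if i = j then (1:ℝ) else 0)) • g := by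
      intro i
      rw [smul_comm (d j) (c i), ← smul_add, ← smul_add, ep_io, smul_smul, smul_smul]
    simp only [h2, ← Finset.sum_smul]
    congr 1
    simp
  simp only [h1, ← Finset.sum_smul]

theorem cp_self (c : Fin m → ℝ) (g : Finset (Fin m) → M) : cp c (cp c g) = 0 := by
  have h := cp_cp c c g
  rw [← two_smul ℝ] at h
  exact (smul_eq_zero.1 h).resolve_left two_ne_zero

theorem cm_self (c : Fin m → ℝ) (g : Finset (Fin m) → M) : cm c (cm c g) = 0 := by
  have h := cm_cm c c g
  rw [← two_smul ℝ] at h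
  exact (smul_eq_zero.1 h).resolve_left two_ne_zero

/-- `γ(c) = c⁺ + c⁻` -/
noncomputable def gam (c : Fin m → ℝ) : (Finset (Fin m) → M) →ₗ[ℝ] (Finset (Fin m) → M) := cp c + cm c

/-- `δ(c) = c⁺ - c⁻` -/
noncomputable def del (c : Fin m → ℝ) : (Finset (Fin m) → M) →ₗ[ℝ] (Finset (Fin m) → M) := cp c - cm c

theorem gam_gam (c d : Fin m → ℝ) (g : Finset (Fin m) → M) :
    gam c (gam d g) + gam d (gam c g) = (2 * ∑ j, c j * d j) • g := by
  have h1 := cp_cp c d g
  have h2 := cm_cm c d g
  have h3 := cp_cm c d g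
  have h4 := cp_cm d c g
  have e : ∑ j, d j * c j = ∑ j, c j * d j := Finset.sum_congr rfl fun j _ => mul_comm _ _
  rw [e] at h4
  simp only [gam, LinearMap.add_apply, map_add]
  rw [two_mul, add_smul, ← h3]
  calc _ = (cp c (cp d g) + cp d (cp c g)) + (cm c (cm d g) + cm d (cm c g))
        + (cp c (cm d g) + cm d (cp c g)) + (cp d (cm c g) + cm c (cp d g)) := by abel
    _ = _ := by rw [h1, h2, h4, h3]; abel

theorem del_del (c d : Fin m → ℝ) (g : Finset (Fin m) → M) :
    del c (del d g) + del d (del c g) = (-(2 * ∑ j, c j * d j)) • g := by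
  have h1 := cp_cp c d g
  have h2 := cm_cm c d g
  have h3 := cp_cm c d g
  have h4 := cp_cm d c g
  have e : ∑ j, d j * c j = ∑ j, c j * d j := Finset.sum_congr rfl fun j _ => mul_comm _ _
  rw [e] at h4
  simp only [del, LinearMap.sub_apply, map_sub]
  rw [two_mul, neg_smul, add_smul]
  calc _ = (cp c (cp d g) + cp d (cp c g)) + (cm c (cm d g) + cm d (cm c g))
        - (cp c (cm d g) + cm d (cp c g)) - (cp d (cm c g) + cm c (cp d g)) := by abel
    _ = _ := by rw [h1, h2, h4, h3]; abel

theorem gam_del (c d : Fin m → ℝ) (g : Finset (Fin m) → M) :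
    gam c (del d g) + del d (gam c g) = 0 := by
  have h1 := cp_cp c d g
  have h2 := cm_cm c d g
  have h3 := cp_cm c d g
  have h4 := cp_cm d c g
  have e : ∑ j, d j * c j = ∑ j, c j * d j := Finset.sum_congr rfl fun j _ => mul_comm _ _
  rw [e] at h4
  simp only [gam, del, LinearMap.sub_apply, LinearMap.add_apply, map_sub, map_add]
  calc _ = (cp c (cp d g) + cp d (cp c g)) - (cm c (cm d g) + cm d (cm c g))
        - (cp c (cm d g) + cm d (cp c g)) + (cp d (cm c g) + cm c (cp d g)) := by abel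
    _ = _ := by rw [h1, h2, h4, h3]; abel

/-! ### Parity, pointwise operators, degrees -/

/-- parity operator -/
def par : (Finset (Fin m) → M) →ₗ[ℝ] (Finset (Fin m) → M) where
  toFun g a := ((-1 : ℝ) ^ a.card) • g a
  map_add' g h := by funext a; simp
  map_smul' r g := by
    funext a
    simp only [Pi.smul_apply, RingHom.id_apply]
    rw [smul_comm]

theorem par_apply (g : Finset (Fin m) → M) (a : Finset (Fin m)) : par g a = ((-1 : ℝ) ^ a.card) • g a := rfl

theorem par_par (g : Finset (Fin m) → M) : par (par g) = g := by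
  funext a
  rw [par_apply, par_apply, smul_smul, ← pow_add, ← two_mul, pow_mul]
  norm_num

theorem par_ep (j : Fin m) (g : Finset (Fin m) → M) : par (ep j g) = -ep j (par g) := by
  funext a
  rw [Pi.neg_apply, par_apply]
  by_cases h : j ∈ a
  · rw [ep_of_mem h, ep_of_mem h, par_apply, ← Finset.card_erase_add_one h, smul_comm, ← smul_neg]
    congr 1
    rw [pow_succ, mul_neg_one, neg_smul]
  · rw [ep_of_notMem h, ep_of_notMem h, smul_zero, neg_zero]

theorem par_io (j : Fin m) (g : Finset (Fin m) → M) : par (io j g) = -io j (par g) := by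
  funext a
  rw [Pi.neg_apply, par_apply]
  by_cases h : j ∈ a
  · rw [io_of_mem h, io_of_mem h, smul_zero, neg_zero]
  · rw [io_of_notMem h, io_of_notMem h, par_apply, Finset.card_insert_of_notMem h, smul_comm, ← smul_neg]
    congr 1
    rw [pow_succ, mul_neg_one, neg_smul, neg_neg]

theorem par_cp (c : Fin m → ℝ) (g : Finset (Fin m) → M) : par (cp c g) = -cp c (par g) := by
  rw [cp_apply, cp_apply, map_sum, ← Finset.sum_neg_distrib]
  refine Finset.sum_congr rfl fun j _ => ?_
  rw [map_smul, par_ep, smul_neg]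

theorem par_cm (c : Fin m → ℝ) (g : Finset (Fin m) → M) : par (cm c g) = -cm c (par g) := by
  rw [cm_apply, cm_apply, map_sum, ← Finset.sum_neg_distrib]
  refine Finset.sum_congr rfl fun j _ => ?_
  rw [map_smul, par_io, smul_neg]

/-- an operator of `M` acting pointwise -/
def pt (T : M →ₗ[ℝ] M) : (Finset (Fin m) → M) →ₗ[ℝ] (Finset (Fin m) → M) where
  toFun g a := T (g a)
  map_add' g h := by funext a; simp
  map_smul' r g := by funext a; simp

theorem pt_apply (T : M →ₗ[ℝ] M) (g : Finset (Fin m) → M) (a : Finset (Fin m)) : pt T g a = T (g a) := rfl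

theorem pt_ep (T : M →ₗ[ℝ] M) (j : Fin m) (g : Finset (Fin m) → M) : pt T (ep j g) = ep j (pt T g) := by
  funext a
  rw [pt_apply]
  by_cases h : j ∈ a
  · rw [ep_of_mem h, ep_of_mem h, map_smul, pt_apply]
  · rw [ep_of_notMem h, ep_of_notMem h, map_zero]

theorem pt_io (T : M →ₗ[ℝ] M) (j : Fin m) (g : Finset (Fin m) → M) : pt T (io j g) = io j (pt T g) := by
  funext a
  rw [pt_apply]
  by_cases h : j ∈ a
  · rw [io_of_mem h, io_of_mem h, map_zero]
  · rw [io_of_notMem h, io_of_notMem h, map_smul, pt_apply]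

theorem pt_cp (T : M →ₗ[ℝ] M) (c : Fin m → ℝ) (g : Finset (Fin m) → M) : pt T (cp c g) = cp c (pt T g) := by
  rw [cp_apply, cp_apply, map_sum]
  refine Finset.sum_congr rfl fun j _ => ?_
  rw [map_smul, pt_ep]

theorem pt_cm (T : M →ₗ[ℝ] M) (c : Fin m → ℝ) (g : Finset (Fin m) → M) : pt T (cm c g) = cm c (pt T g) := by
  rw [cm_apply, cm_apply, map_sum]
  refine Finset.sum_congr rfl fun j _ => ?_
  rw [map_smul, pt_io]

theorem pt_par (T : M →ₗ[ℝ] M) (g : Finset (Fin m) → M) : pt T (par g) = par (pt T g) := by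
  funext a
  rw [pt_apply, par_apply, par_apply, map_smul, pt_apply]

/-- `g` is homogeneous of degree `d` -/
def Dg (d : ℕ) (g : Finset (Fin m) → M) : Prop := ∀ a, a.card ≠ d → g a = 0

/-- the component of degree `d` -/
def cmp (d : ℕ) : (Finset (Fin m) → M) →ₗ[ℝ] (Finset (Fin m) → M) where
  toFun g a := if a.card = d then g a else 0
  map_add' g h := by
    funext a
    simp only [Pi.add_apply]
    split_ifs <;> simp
  map_smul' r g := by
    funext a
    simp only [Pi.smul_apply, RingHom.id_apply]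
    split_ifs <;> simp

theorem cmp_apply (d : ℕ) (g : Finset (Fin m) → M) (a : Finset (Fin m)) :
    cmp d g a = if a.card = d then g a else 0 := rfl

theorem Dg_cmp (d : ℕ) (g : Finset (Fin m) → M) : Dg d (cmp d g) := fun a h => by
  rw [cmp_apply, if_neg h]

theorem cmp_of_Dg {d : ℕ} {g : Finset (Fin m) → M} (h : Dg d g) : cmp d g = g := by
  funext a
  rw [cmp_apply]
  split_ifs with ha
  · rfl
  · exact (h a ha).symm

theorem cmp_of_Dg_ne {d e : ℕ} (hde : d ≠ e) {g : Finset (Fin m) → M} (h : Dg d g) : cmp e g = 0 := by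
  funext a
  rw [cmp_apply]
  split_ifs with ha
  · exact h a (by rw [ha]; exact hde.symm)
  · rfl

theorem sum_cmp (g : Finset (Fin m) → M) : ∑ d ∈ range (m + 1), cmp d g = g := by
  funext a
  rw [Finset.sum_apply]
  simp only [cmp_apply]
  rw [Finset.sum_ite_eq, if_pos]
  rw [Finset.mem_range]
  have := a.card_le_univ
  rw [Fintype.card_fin] at this
  omega

theorem Dg_ep {d : ℕ} {g : Finset (Fin m) → M} (h : Dg d g) (j : Fin m) : Dg (d + 1) (ep j g) := by
  intro a ha
  by_cases hj : j ∈ a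
  · rw [ep_of_mem hj, h, smul_zero]
    intro hc
    exact ha (by rw [← Finset.card_erase_add_one hj, hc])
  · exact ep_of_notMem hj g

theorem Dg_io {d : ℕ} {g : Finset (Fin m) → M} (h : Dg (d + 1) g) (j : Fin m) : Dg d (io j g) := by
  intro a ha
  by_cases hj : j ∈ a
  · exact io_of_mem hj g
  · rw [io_of_notMem hj, h, smul_zero]
    rw [Finset.card_insert_of_notMem hj]
    omega

theorem Dg_io_zero {g : Finset (Fin m) → M} (h : Dg 0 g) (j : Fin m) : io j g = 0 := by
  funext a
  by_cases hj : j ∈ a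
  · rw [io_of_mem hj]; rfl
  · rw [io_of_notMem hj, h, smul_zero]
    · rfl
    · rw [Finset.card_insert_of_notMem hj]
      omega

theorem Dg_sum {ι : Type*} {d : ℕ} {s : Finset ι} {f : ι → Finset (Fin m) → M} (h : ∀ i ∈ s, Dg d (f i)) :
    Dg d (∑ i ∈ s, f i) := by
  intro a ha
  rw [Finset.sum_apply]
  exact Finset.sum_eq_zero fun i hi => h i hi a ha

theorem Dg_smul {d : ℕ} {g : Finset (Fin m) → M} (h : Dg d g) (r : ℝ) : Dg d (r • g) := fun a ha => by
  rw [Pi.smul_apply, h a ha, smul_zero]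

theorem Dg_add {d : ℕ} {g h : Finset (Fin m) → M} (hg : Dg d g) (hh : Dg d h) : Dg d (g + h) := fun a ha => by
  rw [Pi.add_apply, hg a ha, hh a ha, add_zero]

theorem Dg_cp {d : ℕ} {g : Finset (Fin m) → M} (h : Dg d g) (c : Fin m → ℝ) : Dg (d + 1) (cp c g) := by
  rw [cp_apply]
  exact Dg_sum fun j _ => Dg_smul (Dg_ep h j) _

theorem Dg_cm {d : ℕ} {g : Finset (Fin m) → M} (h : Dg (d + 1) g) (c : Fin m → ℝ) : Dg d (cm c g) := by
  rw [cm_apply]
  exact Dg_sum fun j _ => Dg_smul (Dg_io h j) _

theorem Dg_cm_zero {g : Finset (Fin m) → M} (h : Dg 0 g) (c : Fin m → ℝ) : cm c g = 0 := by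
  rw [cm_apply]
  exact Finset.sum_eq_zero fun j _ => by rw [Dg_io_zero h, smul_zero]

/-! ### Adjointness -/

/-- the bilinear form on functions -/
noncomputable def BF (B : M →ₗ[ℝ] M →ₗ[ℝ] ℝ) (g h : Finset (Fin m) → M) : ℝ := ∑ a, B (g a) (h a)

theorem BF_ep (B : M →ₗ[ℝ] M →ₗ[ℝ] ℝ) (j : Fin m) (g h : Finset (Fin m) → M) :
    BF B (ep j g) h = BF B g (io j h) := by
  unfold BF
  have e1 : ∑ a, B (ep j g a) (h a) = ∑ a ∈ univ.filter (fun a : Finset (Fin m) => j ∈ a),
      sg j a * B (g (a.erase j)) (h a) := by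
    rw [Finset.sum_filter]
    refine Finset.sum_congr rfl fun a _ => ?_
    split_ifs with hj
    · rw [ep_of_mem hj, map_smul, LinearMap.smul_apply, smul_eq_mul]
    · rw [ep_of_notMem hj, map_zero, LinearMap.zero_apply]
  have e2 : ∑ a, B (g a) (io j h a) = ∑ a ∈ univ.filter (fun a : Finset (Fin m) => j ∉ a),
      sg j a * B (g a) (h (insert j a)) := by
    rw [Finset.sum_filter]
    refine Finset.sum_congr rfl fun a _ => ?_
    by_cases hj : j ∈ a
    · rw [if_neg (not_not.2 hj), io_of_mem hj, map_zero]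
    · rw [if_pos hj, io_of_notMem hj, map_smul, smul_eq_mul]
  rw [e1, e2]
  refine Finset.sum_nbij' (fun a => a.erase j) (fun a => insert j a) ?_ ?_ ?_ ?_ ?_
  · intro a _
    simp
  · intro a _
    simp
  · intro a ha
    exact Finset.insert_erase (Finset.mem_filter.1 ha).2
  · intro a ha
    exact Finset.erase_insert (Finset.mem_filter.1 ha).2
  · intro a ha
    have hj := (Finset.mem_filter.1 ha).2
    rw [sg_erase j hj, sp_self, one_mul, Finset.insert_erase hj]

theorem BF_cp (B : M →ₗ[ℝ] M →ₗ[ℝ] ℝ) (c : Fin m → ℝ) (g h : Finset (Fin m) → M) :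
    BF B (cp c g) h = BF B g (cm c h) := by
  have key : ∀ j, c j * BF B (ep j g) h = c j * BF B g (io j h) := fun j => by rw [BF_ep]
  have e1 : BF B (cp c g) h = ∑ j, c j * BF B (ep j g) h := by
    unfold BF
    simp only [cp_apply, Finset.sum_apply, Pi.smul_apply, map_sum, map_smul, LinearMap.sum_apply,
      LinearMap.smul_apply, smul_eq_mul]
    rw [Finset.sum_comm]
    simp only [Finset.mul_sum]
  have e2 : BF B g (cm c h) = ∑ j, c j * BF B g (io j h) := by
    unfold BF
    simp only [cm_apply, Finset.sum_apply, Pi.smul_apply, map_sum, map_smul, smul_eq_mul]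
    rw [Finset.sum_comm]
    simp only [Finset.mul_sum]
  rw [e1, e2]
  exact Finset.sum_congr rfl fun j _ => key j

theorem BF_symm {B : M →ₗ[ℝ] M →ₗ[ℝ] ℝ} (hB : ∀ x y, B x y = B y x) (g h : Finset (Fin m) → M) :
    BF B g h = BF B h g := Finset.sum_congr rfl fun _ _ => hB _ _

theorem BF_cm {B : M →ₗ[ℝ] M →ₗ[ℝ] ℝ} (hB : ∀ x y, B x y = B y x) (c : Fin m → ℝ) (g h : Finset (Fin m) → M) :
    BF B (cm c g) h = BF B g (cp c h) := by
  rw [BF_symm hB, ← BF_cp, BF_symm hB]

theorem BF_add_left (B : M →ₗ[ℝ] M →ₗ[ℝ] ℝ) (g g' h : Finset (Fin m) → M) :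
    BF B (g + g') h = BF B g h + BF B g' h := by
  unfold BF
  rw [← Finset.sum_add_distrib]
  exact Finset.sum_congr rfl fun a _ => by rw [Pi.add_apply, map_add, LinearMap.add_apply]

theorem BF_add_right (B : M →ₗ[ℝ] M →ₗ[ℝ] ℝ) (g h h' : Finset (Fin m) → M) :
    BF B g (h + h') = BF B g h + BF B g h' := by
  unfold BF
  rw [← Finset.sum_add_distrib]
  exact Finset.sum_congr rfl fun a _ => by rw [Pi.add_apply, map_add]

theorem BF_gam {B : M →ₗ[ℝ] M →ₗ[ℝ] ℝ} (hB : ∀ x y, B x y = B y x) (c : Fin m → ℝ)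
    (g h : Finset (Fin m) → M) : BF B (gam c g) h = BF B g (gam c h) := by
  unfold gam
  rw [LinearMap.add_apply, LinearMap.add_apply, BF_add_left, BF_add_right, BF_cp, BF_cm hB, add_comm]

theorem BF_pos {B : M →ₗ[ℝ] M →ₗ[ℝ] ℝ} (hB : ∀ x, x ≠ 0 → 0 < B x x) {g : Finset (Fin m) → M} (hg : g ≠ 0) :
    0 < BF B g g := by
  obtain ⟨a, ha⟩ := Function.ne_iff.1 hg
  refine Finset.sum_pos' (fun b _ => ?_) ⟨a, Finset.mem_univ a, hB _ ha⟩
  rcases eq_or_ne (g b) 0 with h | h
  · rw [h, map_zero]
  · exact (hB _ h).le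

end Pool.Agent.Helper34.Car
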