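import Pool.Agent.Singer.Fam
import Pool.Agent.Helper34.Car.Car

/-! # Chains on links: killing vertices one by one -/

set_option linter.unusedSectionVars false
set_option linter.unusedVariables false

namespace Pool.Agent.Helper34.Ch
open Finset Singer Pool.Agent.Helper34.Car

section ch
variable {V : Type*} [Fintype V] [DecidableEq V] {M : Type*} [AddCommGroup M] (r : V → ℕ)

/-- contraction by the vertex `v` -/
def iv (v : V) : (Finset V → M) →+ (Finset V → M) where
  toFun z S := if v ∈ S then 0 else sgz r v S • z (insert v S)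
  map_zero' := by funext S; simp
  map_add' z y := by
    funext S
    simp only [Pi.add_apply]
    split_ifs
    · rw [add_zero]
    · rw [smul_add]

/-- the cone with apex `v` -/
def ev (v : V) : (Finset V → M) →+ (Finset V → M) where
  toFun z S := if v ∈ S then sgz r v S • z (S.erase v) else 0
  map_zero' := by funext S; simp
  map_add' z y := by
    funext S
    simp only [Pi.add_apply]
    split_ifs
    · rw [smul_add]
    · rw [add_zero]

/-- the boundary -/
def bd : (Finset V → M) →+ (Finset V → M) := ∑ v, iv r v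

variable {r}

theorem iv_of_mem {v : V} {S : Finset V} (h : v ∈ S) (z : Finset V → M) : iv r v z S = 0 := if_pos h

theorem iv_of_notMem {v : V} {S : Finset V} (h : v ∉ S) (z : Finset V → M) :
    iv r v z S = sgz r v S • z (insert v S) := if_neg h

theorem ev_of_mem {v : V} {S : Finset V} (h : v ∈ S) (z : Finset V → M) :
    ev r v z S = sgz r v S • z (S.erase v) := if_pos h

theorem ev_of_notMem {v : V} {S : Finset V} (h : v ∉ S) (z : Finset V → M) : ev r v z S = 0 := if_neg h

theorem bd_eq (z : Finset V → M) : bd r z = ∑ v, iv r v z := by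
  unfold bd
  rw [AddMonoidHom.finsetSum_apply]

theorem bd_apply (z : Finset V → M) (S : Finset V) :
    bd r z S = ∑ v ∈ Sᶜ, sgz r v S • z (insert v S) := by
  rw [bd_eq, Finset.sum_apply, ← Finset.sum_filter_add_sum_filter_not univ (fun v => v ∈ S)]
  rw [Finset.sum_eq_zero (fun v hv => iv_of_mem (Finset.mem_filter.1 hv).2 z), zero_add]
  refine Finset.sum_congr ?_ fun v hv => iv_of_notMem (Finset.mem_compl.1 hv) z
  ext v
  simp

/-- the sign of a pair -/
def spr (r : V → ℕ) (u v : V) : ℤ := if r u < r v then -1 else 1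

theorem spr_self (v : V) : spr r v v = 1 := if_neg (lt_irrefl _)

theorem spr_add (hr : Function.Injective r) {u v : V} (h : u ≠ v) : spr r u v + spr r v u = 0 := by
  unfold spr
  rcases lt_trichotomy (r u) (r v) with h1 | h1 | h1
  · rw [if_pos h1, if_neg (by omega)]
    rfl
  · exact absurd (hr h1) h
  · rw [if_neg (by omega), if_pos h1]
    rfl

theorem sgz_ins {u v : V} {T : Finset V} (hu : u ∉ T) : sgz r v (insert u T) = spr r u v * sgz r v T :=
  sgz_insert hu

theorem sgz_ers {u v : V} {T : Finset V} (hu : u ∈ T) : sgz r v (T.erase u) = spr r u v * sgz r v T := by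
  have h := sgz_ins (r := r) (v := v) (Finset.notMem_erase u T)
  rw [Finset.insert_erase hu] at h
  have h2 : spr r u v * spr r u v = 1 := by
    unfold spr
    split_ifs <;> rfl
  rw [h, ← mul_assoc, h2, one_mul]

theorem iv_iv_self (v : V) (z : Finset V → M) : iv r v (iv r v z) = 0 := by
  funext S
  by_cases h : v ∈ S
  · rw [iv_of_mem h]; rfl
  · rw [iv_of_notMem h, iv_of_mem (Finset.mem_insert_self v S), smul_zero]; rfl

theorem iv_iv (hr : Function.Injective r) (u v : V) (z : Finset V → M) :
    iv r u (iv r v z) = -iv r v (iv r u z) := by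
  rcases eq_or_ne u v with rfl | huv
  · rw [iv_iv_self, neg_zero]
  funext S
  rw [Pi.neg_apply]
  by_cases hu : u ∈ S
  · rw [iv_of_mem hu]
    by_cases hv : v ∈ S
    · rw [iv_of_mem hv, neg_zero]
    · rw [iv_of_notMem hv, iv_of_mem (Finset.mem_insert_of_mem hu), smul_zero, neg_zero]
  · by_cases hv : v ∈ S
    · rw [iv_of_notMem hu, iv_of_mem (Finset.mem_insert_of_mem hv), iv_of_mem hv, smul_zero, neg_zero]
    · rw [iv_of_notMem hu, iv_of_notMem hv, iv_of_notMem (fun h => (Finset.mem_insert.1 h).elim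
        (fun e => huv e.symm) hv), iv_of_notMem (fun h => (Finset.mem_insert.1 h).elim huv hu),
        sgz_ins hu, sgz_ins hv, Finset.insert_comm, smul_smul, smul_smul, ← neg_smul]
      congr 1
      linear_combination (sgz r u S * sgz r v S) * spr_add hr huv

theorem ev_iv_self (v : V) (z : Finset V → M) : ev r v (iv r v z) + iv r v (ev r v z) = z := by
  funext S
  rw [Pi.add_apply]
  by_cases h : v ∈ S
  · rw [ev_of_mem h, iv_of_notMem (Finset.notMem_erase v S), iv_of_mem h, sgz_ers h, spr_self, one_mul,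
      smul_smul, sgz_sq, one_smul, add_zero, Finset.insert_erase h]
  · rw [ev_of_notMem h, iv_of_notMem h, ev_of_mem (Finset.mem_insert_self v S), sgz_ins h, spr_self,
      one_mul, smul_smul, sgz_sq, one_smul, zero_add, Finset.erase_insert h]

theorem ev_iv_ne (hr : Function.Injective r) {u v : V} (huv : u ≠ v) (z : Finset V → M) :
    iv r v (ev r u z) = -ev r u (iv r v z) := by
  funext S
  rw [Pi.neg_apply]
  by_cases hv : v ∈ S
  · rw [iv_of_mem hv]
    by_cases hu : u ∈ S
    · rw [ev_of_mem hu, iv_of_mem (Finset.mem_erase.2 ⟨huv.symm, hv⟩), smul_zero, neg_zero]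
    · rw [ev_of_notMem hu, neg_zero]
  · rw [iv_of_notMem hv]
    by_cases hu : u ∈ S
    · rw [ev_of_mem hu, ev_of_mem (Finset.mem_insert_of_mem hu),
        iv_of_notMem (fun h => hv (Finset.mem_erase.1 h).2), sgz_ers hu, sgz_ins hv,
        Finset.erase_insert_of_ne huv.symm, smul_smul, smul_smul, ← neg_smul]
      congr 1
      linear_combination (sgz r u S * sgz r v S) * spr_add hr huv
    · rw [ev_of_notMem hu, ev_of_notMem (fun h => (Finset.mem_insert.1 h).elim huv hu), smul_zero, neg_zero]

theorem bd_iv (hr : Function.Injective r) (v : V) (z : Finset V → M) : bd r (iv r v z) = -iv r v (bd r z) := by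
  rw [bd_eq, bd_eq, map_sum, ← Finset.sum_neg_distrib]
  exact Finset.sum_congr rfl fun u _ => iv_iv hr u v z

theorem bd_ev (hr : Function.Injective r) (v : V) (z : Finset V → M) :
    bd r (ev r v z) = z - ev r v (bd r z) := by
  have h : bd r (ev r v z) = iv r v (ev r v z) + ∑ u ∈ univ.erase v, iv r u (ev r v z) := by
    rw [bd_eq]
    exact (Finset.add_sum_erase _ (fun u => iv r u (ev r v z)) (Finset.mem_univ v)).symm
  have h2 : ev r v (bd r z) = ev r v (iv r v z) + ∑ u ∈ univ.erase v, ev r v (iv r u z) := by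
    rw [bd_eq, map_sum]
    exact (Finset.add_sum_erase _ (fun u => ev r v (iv r u z)) (Finset.mem_univ v)).symm
  have h3 : ∑ u ∈ univ.erase v, iv r u (ev r v z) = -∑ u ∈ univ.erase v, ev r v (iv r u z) := by
    rw [← Finset.sum_neg_distrib]
    exact Finset.sum_congr rfl fun u hu => ev_iv_ne hr (Finset.ne_of_mem_erase hu).symm z
  have h4 := ev_iv_self (r := r) v z
  rw [h, h2, h3, eq_sub_iff_add_eq]
  calc _ = ev r v (iv r v z) + iv r v (ev r v z) := by abel
    _ = z := h4

theorem bd_bd (hr : Function.Injective r) (z : Finset V → M) : bd r (bd r z) = 0 := by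
  have h : ∀ v, bd r (iv r v z) = -iv r v (bd r z) := fun v => bd_iv hr v z
  have h1 : bd r (bd r z) = ∑ v, bd r (iv r v z) := by
    conv_lhs => rw [bd_eq z, map_sum]
  have h2 : bd r (bd r z) = -bd r (bd r z) := by
    conv_lhs => rw [h1]
    simp only [h]
    rw [Finset.sum_neg_distrib, ← bd_eq]
  funext S
  have h3 := congrFun h1 S
  -- use the double sum directly
  have h4 : bd r (bd r z) = ∑ u, ∑ v, iv r u (iv r v z) := by
    rw [bd_eq (bd r z), bd_eq z]
    simp only [map_sum]
  rw [h4, Pi.zero_apply]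
  have h5 : ∑ u, ∑ v, iv r u (iv r v z) = ∑ p ∈ (univ : Finset (V × V)), iv r p.1 (iv r p.2 z) := by
    rw [← Finset.univ_product_univ, Finset.sum_product]
  rw [h5]
  have h6 : ∑ p ∈ (univ : Finset (V × V)), iv r p.1 (iv r p.2 z) = 0 := by
    refine Finset.sum_involution (fun p _ => (p.2, p.1)) ?_ ?_ ?_ ?_
    · intro p _
      show iv r p.1 (iv r p.2 z) + iv r p.2 (iv r p.1 z) = 0
      rw [iv_iv hr p.1 p.2, neg_add_cancel]
    · intro p _ hp heq
      apply hp
      have : p.2 = p.1 := congrArg Prod.fst heq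
      rw [this, iv_iv_self]
    · intro p _
      exact Finset.mem_univ _
    · intro p _
      rfl
  rw [h6]
  rfl

/-- `z` vanishes on sets which contain `v` -/
theorem iv_eq_zero {v : V} {z : Finset V → M} (h : ∀ S, v ∈ S → z S = 0) : iv r v z = 0 := by
  funext S
  by_cases hv : v ∈ S
  · rw [iv_of_mem hv]; rfl
  · rw [iv_of_notMem hv, h _ (Finset.mem_insert_self v S), smul_zero]; rfl

/-! ### A1: coefficient systems -/

/-- chains on the link of `m` which avoid `A`, with coefficients `K (m ∪ S)` -/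
def Cc (P : Finset V → Prop) (K : Finset V → AddSubgroup M) (A m : Finset V) (q : ℕ) (z : Finset V → M) : Prop :=
  (∀ S, z S ≠ 0 → P (m ∪ S) ∧ Disjoint m S ∧ Disjoint A S ∧ S.card = q) ∧ ∀ S, z S ∈ K (m ∪ S)

/-- exactness -/
def Van (r : V → ℕ) (P : Finset V → Prop) (K : Finset V → AddSubgroup M) (A m : Finset V) (q : ℕ) : Prop :=
  ∀ z, Cc P K A m q z → bd r z = 0 → ∃ y, Cc P K A m (q + 1) y ∧ bd r y = z

variable {P : Finset V → Prop} {K : Finset V → AddSubgroup M}

theorem Cc.zero (A m : Finset V) (q : ℕ) : Cc P K A m q (0 : Finset V → M) :=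
  ⟨fun S h => absurd rfl h, fun S => (K _).zero_mem⟩

theorem Cc.add {A m : Finset V} {q : ℕ} {z y : Finset V → M} (hz : Cc P K A m q z) (hy : Cc P K A m q y) :
    Cc P K A m q (z + y) := by
  refine ⟨fun S h => ?_, fun S => (K _).add_mem (hz.2 S) (hy.2 S)⟩
  by_cases h1 : z S = 0
  · refine hy.1 S fun h2 => h ?_
    rw [Pi.add_apply, h1, h2, add_zero]
  · exact hz.1 S h1

theorem Cc.neg {A m : Finset V} {q : ℕ} {z : Finset V → M} (hz : Cc P K A m q z) : Cc P K A m q (-z) :=
  ⟨fun S h => hz.1 S fun h2 => h (by rw [Pi.neg_apply, h2, neg_zero]), fun S => (K _).neg_mem (hz.2 S)⟩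

theorem Cc.sub {A m : Finset V} {q : ℕ} {z y : Finset V → M} (hz : Cc P K A m q z) (hy : Cc P K A m q y) :
    Cc P K A m q (z - y) := by
  rw [sub_eq_add_neg]
  exact hz.add hy.neg

theorem Cc.mono {A A' m : Finset V} {q : ℕ} {z : Finset V → M} (hA : A' ⊆ A) (hz : Cc P K A m q z) :
    Cc P K A' m q z :=
  ⟨fun S h => ⟨(hz.1 S h).1, (hz.1 S h).2.1, Finset.disjoint_of_subset_left hA (hz.1 S h).2.2.1, (hz.1 S h).2.2.2⟩,
    hz.2⟩

theorem Cc.iv {A m : Finset V} {q : ℕ} {z : Finset V → M} (hz : Cc P K A m (q + 1) z) (v : V) :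
    Cc P K A (insert v m) q (iv r v z) := by
  refine ⟨fun S h => ?_, fun S => ?_⟩
  · by_cases hv : v ∈ S
    · exact absurd (iv_of_mem hv z) h
    · rw [iv_of_notMem hv] at h
      have h0 : z (insert v S) ≠ 0 := fun h1 => h (by rw [h1, smul_zero])
      obtain ⟨h1, h2, h3, h4⟩ := hz.1 _ h0
      rw [Finset.card_insert_of_notMem hv] at h4
      refine ⟨?_, ?_, ?_, by omega⟩
      · rwa [Finset.insert_union, ← Finset.union_insert]
      · rw [Finset.disjoint_insert_left]
        exact ⟨hv, Finset.disjoint_of_subset_right (Finset.subset_insert v S) h2⟩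
      · exact Finset.disjoint_of_subset_right (Finset.subset_insert v S) h3
  · by_cases hv : v ∈ S
    · rw [iv_of_mem hv]
      exact (K _).zero_mem
    · rw [iv_of_notMem hv, Finset.insert_union, ← Finset.union_insert]
      exact (K _).zsmul_mem (hz.2 _) _

theorem Cc.ev {A m : Finset V} {q : ℕ} {z : Finset V → M} {v : V} (hvA : v ∉ A) (hvm : v ∉ m)
    (hz : Cc P K A (insert v m) q z) : Cc P K A m (q + 1) (ev r v z) := by
  refine ⟨fun S h => ?_, fun S => ?_⟩
  · by_cases hv : v ∈ S
    · rw [ev_of_mem hv] at h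
      have h0 : z (S.erase v) ≠ 0 := fun h1 => h (by rw [h1, smul_zero])
      obtain ⟨h1, h2, h3, h4⟩ := hz.1 _ h0
      rw [Finset.card_erase_of_mem hv] at h4
      have hc : 0 < S.card := Finset.card_pos.2 ⟨v, hv⟩
      rw [Finset.disjoint_insert_left] at h2
      refine ⟨?_, ?_, ?_, by omega⟩
      · rwa [Finset.insert_union, ← Finset.union_insert, Finset.insert_erase hv] at h1
      · rw [← Finset.insert_erase hv, Finset.disjoint_insert_right]
        exact ⟨hvm, h2.2⟩
      · rw [← Finset.insert_erase hv, Finset.disjoint_insert_right]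
        exact ⟨hvA, h3⟩
    · exact absurd (ev_of_notMem hv z) h
  · by_cases hv : v ∈ S
    · rw [ev_of_mem hv]
      have := hz.2 (S.erase v)
      rw [Finset.insert_union, ← Finset.union_insert, Finset.insert_erase hv] at this
      exact (K _).zsmul_mem this _
    · rw [ev_of_notMem hv]
      exact (K _).zero_mem

/-- chains on the link of `insert v m` are chains on the link of `m` avoiding `v` -/
theorem Cc.up (hP : ∀ S T, S ⊆ T → P T → P S) (hK : ∀ S T, S ⊆ T → K T ≤ K S) {A m : Finset V} {q : ℕ}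
    {z : Finset V → M} {v : V} (hz : Cc P K A (insert v m) q z) : Cc P K (insert v A) m q z := by
  refine ⟨fun S h => ?_, fun S => ?_⟩
  · obtain ⟨h1, h2, h3, h4⟩ := hz.1 _ h
    rw [Finset.disjoint_insert_left] at h2
    refine ⟨hP _ _ ?_ h1, h2.2, ?_, h4⟩
    · exact Finset.union_subset_union_left (Finset.subset_insert v m)
    · rw [Finset.disjoint_insert_left]
      exact ⟨h2.1, h3⟩
  · exact hK _ _ (Finset.union_subset_union_left (Finset.subset_insert v m)) (hz.2 S)

/-- the part of a chain which avoids `v` -/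
theorem Cc.avoid {A m : Finset V} {q : ℕ} {z : Finset V → M} (hz : Cc P K A m q z) (v : V) :
    Cc P K (insert v A) m q (Ch.iv r v (Ch.ev r v z)) := by
  have e : ∀ S, Ch.iv r v (Ch.ev r v z) S = if v ∈ S then 0 else z S := by
    intro S
    split_ifs with hv
    · exact iv_of_mem hv _
    · rw [iv_of_notMem hv, ev_of_mem (Finset.mem_insert_self v S), sgz_ins hv, spr_self, one_mul,
        smul_smul, sgz_sq, one_smul, Finset.erase_insert hv]
  refine ⟨fun S h => ?_, fun S => ?_⟩
  · rw [e] at h
    split_ifs at h with hv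
    · exact absurd rfl h
    · obtain ⟨h1, h2, h3, h4⟩ := hz.1 _ h
      refine ⟨h1, h2, ?_, h4⟩
      rw [Finset.disjoint_insert_left]
      exact ⟨hv, h3⟩
  · rw [e]
    split_ifs with hv
    · exact (K _).zero_mem
    · exact hz.2 S

theorem Cc.iv_zero {A m : Finset V} {q : ℕ} {z : Finset V → M} (hz : Cc P K A m q z) {v : V} (hv : v ∈ A) :
    Ch.iv r v z = 0 := by
  refine iv_eq_zero fun S hS => ?_
  by_contra h
  exact Finset.disjoint_left.1 (hz.1 S h).2.2.1 hv hS

theorem Cc.of_mem {A m : Finset V} {q : ℕ} {z : Finset V → M} (hz : Cc P K A m q z) {v : V} (hv : v ∈ m) :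
    Cc P K (insert v A) m q z := by
  refine ⟨fun S h => ?_, hz.2⟩
  obtain ⟨h1, h2, h3, h4⟩ := hz.1 _ h
  refine ⟨h1, h2, ?_, h4⟩
  rw [Finset.disjoint_insert_left]
  exact ⟨Finset.disjoint_left.1 h2 hv, h3⟩

theorem van_step (hr : Function.Injective r) (hP : ∀ S T, S ⊆ T → P T → P S) (hK : ∀ S T, S ⊆ T → K T ≤ K S)
    {A m : Finset V} {q : ℕ} {v : V} (h1 : Van r P K A m q) (h2 : Van r P K A (insert v m) q) :
    Van r P K (insert v A) m q := by
  intro z hz hb
  obtain ⟨y, hy, hyz⟩ := h1 z (hz.mono (Finset.subset_insert v A)) hb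
  obtain ⟨u, hu, huy⟩ := h2 (iv r v y) (hy.iv v) (by
    rw [bd_iv hr, hyz, hz.iv_zero (Finset.mem_insert_self v A), neg_zero])
  refine ⟨iv r v (ev r v y) + u, (hy.avoid v).add (hu.up hP hK), ?_⟩
  have h9 := ev_iv_self (r := r) v z
  rw [hz.iv_zero (Finset.mem_insert_self v A), map_zero, zero_add] at h9
  rw [map_add, huy, bd_iv hr, bd_ev hr, hyz, map_sub, h9]
  abel

theorem van_of_mem {A m : Finset V} {q : ℕ} {v : V} (hv : v ∈ m) (h1 : Van r P K A m q) :
    Van r P K (insert v A) m q := by
  intro z hz hb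
  obtain ⟨y, hy, hyz⟩ := h1 z (hz.mono (Finset.subset_insert v A)) hb
  exact ⟨y, hy.of_mem hv, hyz⟩

/-- vanishing for all larger links gives vanishing on the complement of every set of vertices -/
theorem van_all (hr : Function.Injective r) (hP : ∀ S T, S ⊆ T → P T → P S) (hK : ∀ S T, S ⊆ T → K T ≤ K S)
    {m0 : Finset V} {c q : ℕ} (h : ∀ m, m0 ⊆ m → c ≤ m.card → Van r P K ∅ m q) (A : Finset V) :
    ∀ m, m0 ⊆ m → c ≤ m.card → Van r P K A m q := by
  induction A using Finset.induction_on with
  | empty => exact h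
  | insert v A _ ih =>
    intro m hm hc
    by_cases hv : v ∈ m
    · exact van_of_mem hv (ih m hm hc)
    · exact van_step hr hP hK (ih m hm hc) (ih (insert v m) (hm.trans (Finset.subset_insert v m))
        (hc.trans (Finset.card_le_card (Finset.subset_insert v m))))

/-- A1': a cycle on the link of `m` whose contractions are boundaries is a boundary -/
theorem kill (hr : Function.Injective r) (hP : ∀ S T, S ⊆ T → P T → P S) (hK : ∀ S T, S ⊆ T → K T ≤ K S)
    {m : Finset V} {i : ℕ} (h : ∀ m', m ⊆ m' → m.card + 2 ≤ m'.card → Van r P K ∅ m' i)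
    {z : Finset V → M} (hz : Cc P K ∅ m (i + 1) z) (hb : bd r z = 0)
    (hv : ∀ v, v ∉ m → ∃ y, Cc P K ∅ (insert v m) (i + 1) y ∧ bd r y = iv r v z) :
    ∃ y, Cc P K ∅ m (i + 2) y ∧ bd r y = z := by
  have hV := van_all hr hP hK h
  have key : ∀ A : Finset V, ∃ z' y0 : Finset V → M, Cc P K A m (i + 1) z' ∧ Cc P K ∅ m (i + 2) y0 ∧
      bd r y0 = z - z' ∧ ∀ v, v ∉ m → ∃ y, Cc P K A (insert v m) (i + 1) y ∧ bd r y = iv r v z' := by
    intro A
    induction A using Finset.induction_on with
    | empty => exact ⟨z, 0, hz, Cc.zero _ _ _, by rw [map_zero, sub_self], hv⟩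
    | insert w A hwA ih =>
      obtain ⟨z', y0, h1, h2, h3, h4⟩ := ih
      by_cases hw : w ∈ m
      · refine ⟨z', y0, h1.of_mem hw, h2, h3, fun v hvm => ?_⟩
        obtain ⟨y, hy, hyz⟩ := h4 v hvm
        exact ⟨y, hy.of_mem (Finset.mem_insert_of_mem hw), hyz⟩
      have hbz' : bd r z' = 0 := by
        have h5 : bd r (bd r y0) = bd r (z - z') := by rw [h3]
        rw [bd_bd hr, map_sub, hb, zero_sub] at h5
        exact neg_eq_zero.1 h5.symm
      obtain ⟨yw, hyw, hywz⟩ := h4 w hw
      have hev : Cc P K A m (i + 2) (ev r w yw) := Cc.ev hwA hw hyw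
      have hbe : bd r (ev r w yw) = iv r w (ev r w z') + yw - z' := by
        rw [bd_ev hr, hywz]
        have := ev_iv_self (r := r) w z'
        nth_rewrite 3 [← this]
        abel
      refine ⟨iv r w (ev r w z') + yw, y0 - ev r w yw, (h1.avoid w).add (hyw.up hP hK),
        h2.sub (hev.mono (Finset.empty_subset A)), ?_, fun v hvm => ?_⟩
      · rw [map_sub, h3, hbe]
        abel
      · rcases eq_or_ne v w with rfl | hvw
        · refine ⟨0, Cc.zero _ _ _, ?_⟩
          rw [map_zero, Cc.iv_zero ((h1.avoid v).add (hyw.up hP hK)) (Finset.mem_insert_self v A)]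
        obtain ⟨yv, hyv, hyvz⟩ := h4 v hvm
        -- `Y` in the link of `v`
        have hY : Cc P K A (insert v m) (i + 1) (yv + ev r w (iv r v yw)) := by
          refine hyv.add (Cc.ev hwA ?_ ?_)
          · rw [Finset.mem_insert, not_or]
            exact ⟨hvw.symm, hw⟩
          · rw [Finset.insert_comm]
            exact hyw.iv v
        have hbY : bd r (yv + ev r w (iv r v yw)) = iv r v (iv r w (ev r w z') + yw) := by
          have e1 : iv r v (iv r w (ev r w z') + yw) = iv r v z' + iv r v (bd r (ev r w yw)) := by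
            rw [← map_add, hbe]
            congr 1
            abel
          have e2 : iv r v (bd r (ev r w yw)) = -bd r (iv r v (ev r w yw)) := by
            rw [bd_iv hr, neg_neg]
          have e3 : iv r v (ev r w yw) = -ev r w (iv r v yw) := ev_iv_ne hr hvw.symm yw
          rw [map_add, hyvz, e1, e2, e3, map_neg, neg_neg]
        obtain ⟨u, hu, huY⟩ := hV A (insert w (insert v m))
          ((Finset.subset_insert v m).trans (Finset.subset_insert w _)) (by
            rw [Finset.card_insert_of_notMem (by rw [Finset.mem_insert, not_or]; exact ⟨hvw.symm, hw⟩),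
              Finset.card_insert_of_notMem hvm])
          (iv r w (yv + ev r w (iv r v yw))) (hY.iv w) (by
            rw [bd_iv hr, hbY, iv_iv hr, neg_neg,
              Cc.iv_zero ((h1.avoid w).add (hyw.up hP hK)) (Finset.mem_insert_self w A), map_zero])
        refine ⟨iv r w (ev r w (yv + ev r w (iv r v yw))) + u, (hY.avoid w).add (hu.up hP hK), ?_⟩
        have e5 : iv r w (bd r (yv + ev r w (iv r v yw))) = 0 := by
          rw [hbY, iv_iv hr, Cc.iv_zero ((h1.avoid w).add (hyw.up hP hK)) (Finset.mem_insert_self w A),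
            map_zero, neg_zero]
        have e6 := ev_iv_self (r := r) w (bd r (yv + ev r w (iv r v yw)))
        rw [e5, map_zero, zero_add] at e6
        rw [map_add, huY, bd_iv hr, bd_ev hr, map_sub, e6, hbY]
        abel
  obtain ⟨z', y0, h1, h2, h3, _⟩ := key univ
  have h0 : z' = 0 := by
    funext S
    by_contra h5
    obtain ⟨_, _, h6, h7⟩ := h1.1 S h5
    have : S = ∅ := by
      rw [← Finset.disjoint_self_iff_empty]
      exact Finset.disjoint_of_subset_left (Finset.subset_univ S) h6
    rw [this, Finset.card_empty] at h7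
    omega
  exact ⟨y0, h2, by rw [h3, h0, sub_zero]⟩

/-- A1: local vanishing gives global vanishing -/
theorem local_global (hr : Function.Injective r) (hP : ∀ S T, S ⊆ T → P T → P S)
    (hK : ∀ S T, S ⊆ T → K T ≤ K S) {m : Finset V} {i : ℕ}
    (h : ∀ m', m ⊆ m' → m.card + 1 ≤ m'.card → Van r P K ∅ m' i) : Van r P K ∅ m (i + 1) := by
  intro z hz hb
  refine kill hr hP hK (fun m' hm hc => h m' hm (by omega)) hz hb fun v hv => ?_
  exact h (insert v m) (Finset.subset_insert v m) (by rw [Finset.card_insert_of_notMem hv]) _ (hz.iv v)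
    (by rw [bd_iv hr, hb, map_zero, neg_zero])

end ch

end Pool.Agent.Helper34.Ch
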